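import Pool.Agent.NDG25.Defs

/-!
# Attaching copies of a clique

The graph obtained from a graph by attaching disjoint copies of a clique, all in the same way.
-/

namespace Pool.Agent.NDG61

variable {V W : Type*}

/-- The graph obtained from `G` by adding `j` disjoint cliques with vertex set `W`: the new
vertices are `Sum.inr (i, w)` with `i : Fin j` (the number of the clique) and `w : W`. Two
different vertices of the same clique are adjacent, vertices of different cliques are not, and
the vertex `w` of each clique is joined to the old vertices in `S w`. The old vertices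
`Sum.inl a` are adjacent as in `G`. -/
def addCliques (G : SimpleGraph V) (S : W → Set V) (j : ℕ) : SimpleGraph (V ⊕ Fin j × W) where
  Adj x y :=
    match x, y with
    | Sum.inl a, Sum.inl b => G.Adj a b
    | Sum.inl a, Sum.inr (_, w) => a ∈ S w
    | Sum.inr (_, w), Sum.inl b => b ∈ S w
    | Sum.inr (i, w), Sum.inr (k, w') => i = k ∧ w ≠ w'
  symm := by
    constructor
    rintro (a | ⟨i, w⟩) (b | ⟨k, w'⟩) h
    · exact G.adj_symm h
    · exact h
    · exact h
    · exact ⟨h.1.symm, h.2.symm⟩
  loopless := by
    constructor
    rintro (a | ⟨i, w⟩) h
    · exact G.irrefl h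
    · exact h.2 rfl

end Pool.Agent.NDG61
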