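import Pool.Agent.NDG61.Psi

/-! Periodicity in the number of cliques without chosen vertex. -/

namespace Pool.Agent.NDG61

open Pool.Agent.NDG25

variable {V W : Type*} [Finite V] [Finite W] (G : SimpleGraph V) (S : W → Set V)

omit [Finite V] [Finite W] in
theorem leg1_iff (U : Set V) (R : Set W) (k k' : ℕ) (_hk : 1 ≤ k) (hk' : 1 ≤ k') (a : V)
    (h : Leg1 G S U R k a) : Leg1 G S U R k' a := by
  rcases h with h | ⟨_, h⟩
  · exact Or.inl h
  · exact Or.inr ⟨hk', h⟩

omit [Finite V] [Finite W] in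
theorem leg2_iff (U : Set V) (R : Set W) (k k' : ℕ) (hk' : 1 ≤ k') (w : W)
    (h : Leg2 S U R k w) : Leg2 S U R k' w := ⟨hk', h.2⟩

/-- The old vertices that are joined to cliques. -/
def tch : Set V := {x | ∃ w, x ∈ S w}

/-- The measure of a state. -/
noncomputable def mu (U : Set V) (R : Set W) : ℕ :=
  2 * (U.ncard + R.ncard) + (U ∩ tch S).ncard

omit [Finite W] in
theorem mu_le (U T : Set V) (R R' : Set W) (h : (U \ T).ncard + R'.ncard < U.ncard + R.ncard) :
    mu S (U \ T) R' + 2 ≤ mu S U R := by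
  have h1 : ((U \ T) ∩ tch S).ncard ≤ (U ∩ tch S).ncard :=
    Set.ncard_le_ncard (fun x hx => ⟨hx.1.1, hx.2⟩) (Set.toFinite _)
  unfold mu
  omega

omit [Finite W] in
theorem mu_lt (U : Set V) (R : Set W) (w : W) (h : ∃ x ∈ U, x ∈ S w) :
    mu S (U \ S w) R + 3 ≤ mu S U R := by
  have h1 : ((U \ S w) ∩ tch S).ncard < (U ∩ tch S).ncard := by
    obtain ⟨x, hx, hxw⟩ := h
    apply Set.ncard_lt_ncard _ (Set.toFinite _)
    exact ⟨fun y hy => ⟨hy.1.1, hy.2⟩, fun hc => (hc ⟨hx, w, hxw⟩).1.2 hxw⟩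
  have h2 := lt1 U (S w) h
  unfold mu
  omega

/-- The induction hypothesis. -/
def IH (q : ℕ) : Prop := ∀ (U : Set V) (R : Set W), U.ncard + R.ncard < q →
  (∀ k, mu S U R + 1 ≤ k → Psi G S U R (k + 2) true = Psi G S U R k true) ∧
  (∀ k, mu S U R + 2 ≤ k → Psi G S U R (k + 2) false = Psi G S U R k false)

/-- The options that do not keep `(U, R)`. -/
def Low (U : Set V) (R : Set W) (k : ℕ) : Set ℕ := {m |
  (∃ a, Leg1 G S U R k a ∧ Psi G S (U \ nbh G a) (R \ kil S a) k true = m) ∨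
  (∃ w, (1 ≤ k ∧ ∃ x ∈ U, x ∈ S w) ∧ Psi G S (U \ S w) R (k - 1) true = m) ∨
  (∃ w, (∃ x ∈ U, x ∈ S w) ∧ Psi G S (U \ S w) R k true = m)}

/-- There is a move in a clique that keeps `(U, R)`. -/
def Self (U : Set V) (R : Set W) : Prop := (∃ w', w' ∈ R) ∧ ∃ w, ¬ ∃ x ∈ U, x ∈ S w

theorem isOpt_iff (U : Set V) (R : Set W) (k : ℕ) (hk : 1 ≤ k) (m : ℕ) :
    IsOpt G S U R k true m ↔ m ∈ Low G S U R k ∨ (Self S U R ∧ m = Psi G S U R (k - 1) true) := by
  constructor
  · rintro (⟨a, ha, he⟩ | ⟨w, hw, he⟩ | ⟨w, hw, he⟩)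
    · exact Or.inl (Or.inl ⟨a, ha, he⟩)
    · by_cases hx : ∃ x ∈ U, x ∈ S w
      · exact Or.inl (Or.inr (Or.inl ⟨w, ⟨hk, hx⟩, he⟩))
      · right
        have hR : ∃ w', w' ∈ R := by
          rcases hw.2 with h | h
          · exact h
          · exact absurd h hx
        refine ⟨⟨hR, w, hx⟩, ?_⟩
        have hU : U \ S w = U := by
          ext x
          exact ⟨fun h => h.1, fun h => ⟨h, fun h' => hx ⟨x, h, h'⟩⟩⟩
        rw [hU] at he
        exact he.symm
    · exact Or.inl (Or.inr (Or.inr ⟨w, hw.2, he⟩))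
  · rintro ((⟨a, ha, he⟩ | ⟨w, hw, he⟩ | ⟨w, hw, he⟩) | ⟨⟨hR, w, hx⟩, he⟩)
    · exact Or.inl ⟨a, ha, he⟩
    · exact Or.inr (Or.inl ⟨w, ⟨hk, Or.inr hw.2⟩, he⟩)
    · exact Or.inr (Or.inr ⟨w, ⟨rfl, hw⟩, he⟩)
    · refine Or.inr (Or.inl ⟨w, ⟨hk, Or.inl hR⟩, ?_⟩)
      have hU : U \ S w = U := by
        ext x
        exact ⟨fun h => h.1, fun h => ⟨h, fun h' => hx ⟨x, h, h'⟩⟩⟩
      rw [hU]
      exact he.symm

theorem low_eq (U : Set V) (R : Set W) (ih : IH G S (U.ncard + R.ncard)) (k : ℕ)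
    (hk : mu S U R ≤ k + 1) (hk1 : 1 ≤ k) :
    Low G S U R (k + 2) = Low G S U R k := by
  have e1 : ∀ a, Leg1 G S U R k a → Psi G S (U \ nbh G a) (R \ kil S a) (k + 2) true =
      Psi G S (U \ nbh G a) (R \ kil S a) k true := by
    intro a ha
    have h := decA G S U R k a ha
    have hm := mu_le S U (nbh G a) R (R \ kil S a) h
    exact (ih _ _ h).1 k (by omega)
  have e2 : ∀ w, (∃ x ∈ U, x ∈ S w) → Psi G S (U \ S w) R (k + 2 - 1) true =
      Psi G S (U \ S w) R (k - 1) true := by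
    intro w hw
    have h := lt1 U (S w) hw
    have hm := mu_lt S U R w hw
    have := (ih (U \ S w) R (by omega)).1 (k - 1) (by omega)
    rwa [show k - 1 + 2 = k + 2 - 1 by omega] at this
  have e3 : ∀ w, (∃ x ∈ U, x ∈ S w) → Psi G S (U \ S w) R (k + 2) true =
      Psi G S (U \ S w) R k true := by
    intro w hw
    have h := lt1 U (S w) hw
    have hm := mu_lt S U R w hw
    exact (ih (U \ S w) R (by omega)).1 k (by omega)
  ext m
  constructor
  · rintro (⟨a, ha, he⟩ | ⟨w, hw, he⟩ | ⟨w, hw, he⟩)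
    · have ha' := leg1_iff G S U R (k + 2) k (by omega) hk1 a ha
      exact Or.inl ⟨a, ha', (e1 a ha').symm.trans he⟩
    · exact Or.inr (Or.inl ⟨w, ⟨hk1, hw.2⟩, (e2 w hw.2).symm.trans he⟩)
    · exact Or.inr (Or.inr ⟨w, hw, (e3 w hw).symm.trans he⟩)
  · rintro (⟨a, ha, he⟩ | ⟨w, hw, he⟩ | ⟨w, hw, he⟩)
    · exact Or.inl ⟨a, leg1_iff G S U R k (k + 2) hk1 (by omega) a ha, (e1 a ha).trans he⟩
    · exact Or.inr (Or.inl ⟨w, ⟨by omega, hw.2⟩, (e2 w hw.2).trans he⟩)
    · exact Or.inr (Or.inr ⟨w, hw, (e3 w hw).trans he⟩)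

theorem per_true (U : Set V) (R : Set W) (ih : IH G S (U.ncard + R.ncard)) (k : ℕ)
    (hk : mu S U R + 1 ≤ k) :
    Psi G S U R (k + 2) true = Psi G S U R k true := by
  by_cases hq : U.ncard + R.ncard = 0
  · have hU : U = ∅ := (Set.ncard_eq_zero (Set.toFinite _)).1 (by omega)
    have hR : R = ∅ := (Set.ncard_eq_zero (Set.toFinite _)).1 (by omega)
    subst hU hR
    apply psi_congr
    intro m
    have hno : ∀ k, ¬ IsOpt G S (∅ : Set V) (∅ : Set W) k true m := by
      rintro k (⟨a, (⟨x, hx, _⟩ | ⟨_, w, hw, _⟩), _⟩ | ⟨w, ⟨_, (⟨w', hw'⟩ | ⟨x, hx, _⟩)⟩, _⟩ |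
        ⟨w, ⟨_, x, hx, _⟩, _⟩)
      · exact hx
      · exact hw
      · exact hw'
      · exact hx
      · exact hx
    exact iff_of_false (hno _) (hno _)
  have hmu : 2 ≤ mu S U R := by unfold mu; omega
  by_cases hs : Self S U R
  · refine seq_per (Low G S U R) (fun k => Psi G S U R k true)
      (mu S U R - 1) ?_ ?_ ?_ ?_ k (by omega)
    · intro k hk
      exact low_eq G S U R ih k (by omega) (by omega)
    · intro k hk h
      exact psi_not G S U R k true ((isOpt_iff G S U R k (by omega) _).2 (Or.inl h))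
    · intro k hk h
      exact psi_not G S U R k true ((isOpt_iff G S U R k (by omega) _).2 (Or.inr ⟨hs, h⟩))
    · intro k hk m hm
      rcases (isOpt_iff G S U R k (by omega) m).1 (psi_lt G S U R k true m hm) with h | h
      · exact Or.inl h
      · exact Or.inr h.2
  · apply psi_congr
    intro m
    rw [isOpt_iff G S U R (k + 2) (by omega), isOpt_iff G S U R k (by omega),
      low_eq G S U R ih k (by omega) (by omega)]
    constructor
    · rintro (h | ⟨h, _⟩)
      · exact Or.inl h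
      · exact absurd h hs
    · rintro (h | ⟨h, _⟩)
      · exact Or.inl h
      · exact absurd h hs

theorem per_false (U : Set V) (R : Set W) (ih : IH G S (U.ncard + R.ncard)) (k : ℕ)
    (hk : mu S U R + 2 ≤ k) :
    Psi G S U R (k + 2) false = Psi G S U R k false := by
  have e1 : ∀ a, Leg1 G S U R k a → Psi G S (U \ nbh G a) (R \ kil S a) (k + 2) false =
      Psi G S (U \ nbh G a) (R \ kil S a) k false := by
    intro a ha
    have h := decA G S U R k a ha
    have hm := mu_le S U (nbh G a) R (R \ kil S a) h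
    exact (ih _ _ h).2 k (by omega)
  have e2 : ∀ w, Psi G S (U \ S w) R (k + 2 - 1) true = Psi G S (U \ S w) R (k - 1) true := by
    intro w
    by_cases hw : ∃ x ∈ U, x ∈ S w
    · have h := lt1 U (S w) hw
      have hm := mu_lt S U R w hw
      have := (ih (U \ S w) R (by omega)).1 (k - 1) (by omega)
      rwa [show k - 1 + 2 = k + 2 - 1 by omega] at this
    · have hU : U \ S w = U := by
        ext x
        exact ⟨fun h => h.1, fun h => ⟨h, fun h' => hw ⟨x, h, h'⟩⟩⟩
      rw [hU]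
      have := per_true G S U R ih (k - 1) (by omega)
      rwa [show k - 1 + 2 = k + 2 - 1 by omega] at this
  apply psi_congr
  intro m
  constructor
  · rintro (⟨a, ha, he⟩ | ⟨w, hw, he⟩ | ⟨w, hw, _⟩)
    · have ha' := leg1_iff G S U R (k + 2) k (by omega) (by omega) a ha
      exact Or.inl ⟨a, ha', (e1 a ha').symm.trans he⟩
    · exact Or.inr (Or.inl ⟨w, leg2_iff S U R _ k (by omega) w hw, (e2 w).symm.trans he⟩)
    · exact absurd hw.1 (by simp)
  · rintro (⟨a, ha, he⟩ | ⟨w, hw, he⟩ | ⟨w, hw, _⟩)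
    · exact Or.inl ⟨a, leg1_iff G S U R k (k + 2) (by omega) (by omega) a ha,
        (e1 a ha).trans he⟩
    · exact Or.inr (Or.inl ⟨w, leg2_iff S U R _ (k + 2) (by omega) w hw, (e2 w).trans he⟩)
    · exact absurd hw.1 (by simp)

theorem ih_all : ∀ q, IH G S q := by
  intro q
  induction q with
  | zero => intro U R h; exact absurd h (by omega)
  | succ q hq =>
    intro U R h
    have ih : IH G S (U.ncard + R.ncard) := fun U' R' h' => hq U' R' (by omega)
    exact ⟨fun k hk => per_true G S U R ih k hk, fun k hk => per_false G S U R ih k hk⟩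

/-- The start: nothing is dominated. -/
theorem per_start (k : ℕ) (hk : 2 * (Nat.card V + Nat.card W) + (tch S).ncard + 2 ≤ k) :
    Psi G S Set.univ Set.univ (k + 2) false = Psi G S Set.univ Set.univ k false := by
  apply (ih_all G S (Nat.card V + Nat.card W + 1) Set.univ Set.univ _).2 k
  · unfold mu
    rw [Set.ncard_univ, Set.ncard_univ, Set.univ_inter]
    exact hk
  · rw [Set.ncard_univ, Set.ncard_univ]
    omega

end Pool.Agent.NDG61
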