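import Pool.Agent.NDG25.Game
import Pool.Agent.NDG61.CPer

/-! The Grundy value of a position of the game on the graph with attached cliques. -/

namespace Pool.Agent.NDG61

open Pool.Agent.NDG25

variable {V W : Type*} (G : SimpleGraph V) (S : W → Set V) (j : ℕ)

/-- The undominated old vertices. -/
def oU (D : Set (V ⊕ Fin j × W)) : Set V := {x | Sum.inl x ∈ und (addCliques G S j) D}

/-- The vertices of the cliques that are not dominated by chosen old vertices. -/
def oR (D : Set (V ⊕ Fin j × W)) : Set W := {w | ∀ s ∈ S w, Sum.inl s ∉ D}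

/-- The cliques without chosen vertex. -/
def liv (D : Set (V ⊕ Fin j × W)) : Set (Fin j) := {i | ∀ w, Sum.inr (i, w) ∉ D}

open Classical in
/-- Is there a clique with a chosen vertex? -/
noncomputable def ded (D : Set (V ⊕ Fin j × W)) : Bool := decide (∃ i, i ∉ liv (V := V) j D)

theorem cN_ll (a x : V) :
    InNbhd (addCliques G S j) (Sum.inl a) (Sum.inl x) ↔ x ∈ nbh G a := by
  unfold InNbhd nbh InNbhd
  constructor
  · rintro (h | h)
    · exact Or.inl (Sum.inl.inj h)
    · exact Or.inr h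
  · rintro (h | h)
    · exact Or.inl (congrArg Sum.inl h)
    · exact Or.inr h

theorem cN_lr (a : V) (i : Fin j) (w : W) :
    InNbhd (addCliques G S j) (Sum.inl a) (Sum.inr (i, w)) ↔ w ∈ kil S a := by
  unfold InNbhd
  constructor
  · rintro (h | h)
    · exact absurd h (by simp)
    · exact h
  · intro h
    exact Or.inr h

theorem cN_rl (a : V) (i : Fin j) (w : W) :
    InNbhd (addCliques G S j) (Sum.inr (i, w)) (Sum.inl a) ↔ a ∈ S w := by
  unfold InNbhd
  constructor
  · rintro (h | h)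
    · exact absurd h (by simp)
    · exact h
  · intro h
    exact Or.inr h

theorem cN_rr (i k : Fin j) (w w' : W) :
    InNbhd (addCliques G S j) (Sum.inr (i, w)) (Sum.inr (k, w')) ↔ k = i := by
  unfold InNbhd
  constructor
  · rintro (h | h)
    · exact congrArg Prod.fst (Sum.inr.inj h)
    · exact h.1.symm
  · rintro rfl
    by_cases h : w' = w
    · left; rw [h]
    · right; exact ⟨rfl, fun h' => h h'.symm⟩

theorem und_new (D : Set (V ⊕ Fin j × W)) (i : Fin j) (w : W) :
    Sum.inr (i, w) ∈ und (addCliques G S j) D ↔ i ∈ liv j D ∧ w ∈ oR S j D := by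
  constructor
  · intro h
    refine ⟨fun w' hw' => h ⟨_, hw', (cN_rr G S j i i w' w).2 rfl⟩,
      fun s hs hs' => h ⟨_, hs', (cN_lr G S j s i w).2 hs⟩⟩
  · rintro ⟨h1, h2⟩ ⟨v | ⟨k, w'⟩, hv, hv'⟩
    · exact h2 v ((cN_lr G S j v i w).1 hv') hv
    · have := (cN_rr G S j k i w' w).1 hv'
      subst this
      exact h1 w' hv

theorem oU_inl (D : Set (V ⊕ Fin j × W)) (a : V) :
    oU G S j (insert (Sum.inl a) D) = oU G S j D \ nbh G a := by
  ext x
  change Sum.inl x ∈ und _ _ ↔ _
  rw [mem_und_insert, cN_ll]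
  rfl

theorem oU_inr (D : Set (V ⊕ Fin j × W)) (i : Fin j) (w : W) :
    oU G S j (insert (Sum.inr (i, w)) D) = oU G S j D \ S w := by
  ext x
  change Sum.inl x ∈ und _ _ ↔ _
  rw [mem_und_insert, cN_rl]
  rfl

theorem oR_inl (D : Set (V ⊕ Fin j × W)) (a : V) :
    oR S j (insert (Sum.inl a) D) = oR S j D \ kil S a := by
  ext w
  constructor
  · intro h
    exact ⟨fun s hs hs' => h s hs (Or.inr hs'), fun ha => h a ha (Or.inl rfl)⟩
  · rintro ⟨h1, h2⟩ s hs (h | h)
    · have := Sum.inl.inj h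
      subst this
      exact h2 hs
    · exact h1 s hs h

theorem oR_inr (D : Set (V ⊕ Fin j × W)) (i : Fin j) (w : W) :
    oR S j (insert (Sum.inr (i, w)) D) = oR S j D := by
  ext w'
  constructor
  · intro h s hs hs'
    exact h s hs (Or.inr hs')
  · rintro h s hs (h' | h')
    · exact absurd h' (by simp)
    · exact h s hs h'

theorem liv_inl (D : Set (V ⊕ Fin j × W)) (a : V) :
    liv j (insert (Sum.inl a) D) = liv j D := by
  ext i
  constructor
  · intro h w hw
    exact h w (Or.inr hw)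
  · rintro h w (h' | h')
    · exact absurd h' (by simp)
    · exact h w h'

theorem liv_inr (D : Set (V ⊕ Fin j × W)) (i : Fin j) (w : W) :
    liv j (insert (Sum.inr (i, w)) D) = liv j D \ {i} := by
  ext k
  constructor
  · intro h
    refine ⟨fun w' hw' => h w' (Or.inr hw'), ?_⟩
    rintro rfl
    exact h w (Or.inl rfl)
  · rintro ⟨h1, h2⟩ w' (h' | h')
    · exact h2 (congrArg Prod.fst (Sum.inr.inj h'))
    · exact h1 w' h'

theorem ded_iff (D : Set (V ⊕ Fin j × W)) : ded j D = true ↔ ∃ i, i ∉ liv j D := by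
  unfold ded
  simp only [decide_eq_true_eq]

theorem ded_inl (D : Set (V ⊕ Fin j × W)) (a : V) :
    ded j (insert (Sum.inl a) D) = ded j D := by
  unfold ded
  rw [liv_inl]

theorem ded_inr (D : Set (V ⊕ Fin j × W)) (i : Fin j) (w : W) :
    ded j (insert (Sum.inr (i, w)) D) = true := by
  rw [ded_iff]
  refine ⟨i, ?_⟩
  rw [liv_inr]
  exact fun h => h.2 rfl

theorem leg_inl (D : Set (V ⊕ Fin j × W)) (a : V) :
    Legal (addCliques G S j) D (Sum.inl a) ↔
      Leg1 G S (oU G S j D) (oR S j D) (liv j D).ncard a := by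
  rw [legal_iff]
  constructor
  · rintro ⟨x | ⟨i, w⟩, hx, h⟩
    · exact Or.inl ⟨x, hx, (cN_ll G S j a x).1 h⟩
    · obtain ⟨h1, h2⟩ := (und_new G S j D i w).1 hx
      exact Or.inr ⟨(Set.ncard_pos (Set.toFinite _)).2 ⟨i, h1⟩, w, h2,
        (cN_lr G S j a i w).1 h⟩
  · rintro (⟨x, hx, h⟩ | ⟨hk, w, hw, h⟩)
    · exact ⟨Sum.inl x, hx, (cN_ll G S j a x).2 h⟩
    · obtain ⟨i, hi⟩ := (Set.ncard_pos (Set.toFinite _)).1 hk
      exact ⟨Sum.inr (i, w), (und_new G S j D i w).2 ⟨hi, hw⟩, (cN_lr G S j a i w).2 h⟩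

theorem leg_inr (D : Set (V ⊕ Fin j × W)) (i : Fin j) (w : W) :
    Legal (addCliques G S j) D (Sum.inr (i, w)) ↔
      ((i ∈ liv j D ∧ ∃ w', w' ∈ oR S j D) ∨ ∃ x ∈ oU G S j D, x ∈ S w) := by
  rw [legal_iff]
  constructor
  · rintro ⟨x | ⟨k, w'⟩, hx, h⟩
    · exact Or.inr ⟨x, hx, (cN_rl G S j x i w).1 h⟩
    · have := (cN_rr G S j i k w w').1 h
      subst this
      obtain ⟨h1, h2⟩ := (und_new G S j D k w').1 hx
      exact Or.inl ⟨h1, w', h2⟩
  · rintro (⟨h1, w', h2⟩ | ⟨x, hx, h⟩)
    · exact ⟨Sum.inr (i, w'), (und_new G S j D i w').2 ⟨h1, h2⟩, (cN_rr G S j i i w w').2 rfl⟩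
    · exact ⟨Sum.inl x, hx, (cN_rl G S j x i w).2 h⟩

variable [Finite V] [Finite W]

theorem gr_link' : ∀ n : ℕ, ∀ D : Set (V ⊕ Fin j × W), (und (addCliques G S j) D).ncard = n →
    gr (addCliques G S j) D = Psi G S (oU G S j D) (oR S j D) (liv j D).ncard (ded j D) := by
  intro n
  induction n using Nat.strong_induction_on with
  | _ n IH =>
    intro D hD
    have ih : ∀ v, Legal (addCliques G S j) D v → gr (addCliques G S j) (insert v D) =
        Psi G S (oU G S j (insert v D)) (oR S j (insert v D)) (liv j (insert v D)).ncard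
          (ded j (insert v D)) := by
      intro v hv
      exact IH _ (hD ▸ und_lt (addCliques G S j) D v hv) _ rfl
    have hopt : ∀ m, (∃ v, Legal (addCliques G S j) D v ∧
        gr (addCliques G S j) (insert v D) = m) ↔
        IsOpt G S (oU G S j D) (oR S j D) (liv j D).ncard (ded j D) m := by
      intro m
      constructor
      · rintro ⟨a | ⟨i, w⟩, hv, he⟩
        · rw [ih _ hv, oU_inl, oR_inl, liv_inl, ded_inl] at he
          exact Or.inl ⟨a, (leg_inl G S j D a).1 hv, he⟩
        · rw [ih _ hv, oU_inr, oR_inr, liv_inr, ded_inr] at he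
          have hl := (leg_inr G S j D i w).1 hv
          by_cases hi : i ∈ liv j D
          · rw [Set.ncard_sdiff_singleton_of_mem hi] at he
            refine Or.inr (Or.inl ⟨w, ⟨(Set.ncard_pos (Set.toFinite _)).2 ⟨i, hi⟩, ?_⟩, he⟩)
            rcases hl with h | h
            · exact Or.inl h.2
            · exact Or.inr h
          · rw [Set.sdiff_singleton_eq_self hi] at he
            refine Or.inr (Or.inr ⟨w, ⟨(ded_iff j D).2 ⟨i, hi⟩, ?_⟩, he⟩)
            rcases hl with h | h
            · exact absurd h.1 hi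
            · exact h
      · rintro (⟨a, ha, he⟩ | ⟨w, ⟨hk, hw⟩, he⟩ | ⟨w, ⟨hd, hw⟩, he⟩)
        · have hv := (leg_inl G S j D a).2 ha
          refine ⟨Sum.inl a, hv, ?_⟩
          rw [ih _ hv, oU_inl, oR_inl, liv_inl, ded_inl]
          exact he
        · obtain ⟨i, hi⟩ := (Set.ncard_pos (Set.toFinite _)).1 hk
          have hv : Legal (addCliques G S j) D (Sum.inr (i, w)) := by
            refine (leg_inr G S j D i w).2 ?_
            rcases hw with h | h
            · exact Or.inl ⟨hi, h⟩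
            · exact Or.inr h
          refine ⟨Sum.inr (i, w), hv, ?_⟩
          rw [ih _ hv, oU_inr, oR_inr, liv_inr, ded_inr, Set.ncard_sdiff_singleton_of_mem hi]
          exact he
        · obtain ⟨i, hi⟩ := (ded_iff j D).1 hd
          have hv : Legal (addCliques G S j) D (Sum.inr (i, w)) :=
            (leg_inr G S j D i w).2 (Or.inr hw)
          refine ⟨Sum.inr (i, w), hv, ?_⟩
          rw [ih _ hv, oU_inr, oR_inr, liv_inr, ded_inr, Set.sdiff_singleton_eq_self hi]
          exact he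
    apply gr_eq
    · intro v hv he
      exact psi_not G S _ _ _ _ ((hopt _).1 ⟨v, hv, he⟩)
    · intro m hm
      exact (hopt m).2 (psi_lt G S _ _ _ _ m hm)

theorem gr_start' : gr (addCliques G S j) ∅ = Psi G S Set.univ Set.univ j false := by
  rw [gr_link' G S j _ ∅ rfl]
  have h1 : oU G S j ∅ = Set.univ := by
    ext x
    refine ⟨fun _ => trivial, fun _ => ?_⟩
    rintro ⟨v, hv, _⟩
    exact hv
  have h2 : oR S j (∅ : Set (V ⊕ Fin j × W)) = Set.univ := by
    ext w
    exact ⟨fun _ => trivial, fun _ s _ h => h⟩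
  have h3 : liv j (∅ : Set (V ⊕ Fin j × W)) = Set.univ := by
    ext i
    exact ⟨fun _ => trivial, fun _ w h => h⟩
  have h4 : ded j (∅ : Set (V ⊕ Fin j × W)) = false := by
    rw [Bool.eq_false_iff]
    intro h
    obtain ⟨i, hi⟩ := (ded_iff j _).1 h
    exact hi (h3 ▸ trivial)
  rw [h1, h2, h3, h4, Set.ncard_univ, Nat.card_fin]

theorem gr_period' (j : ℕ) (hj : 2 * (Nat.card V + Nat.card W) + (tch S).ncard + 2 ≤ j) :
    gr (addCliques G S (j + 2)) ∅ = gr (addCliques G S j) ∅ := by
  rw [gr_start', gr_start', per_start G S j hj]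

theorem gr_parity' (j j' : ℕ) (hj : 2 * (Nat.card V + Nat.card W) + (tch S).ncard + 2 ≤ j)
    (hj' : 2 * (Nat.card V + Nat.card W) + (tch S).ncard + 2 ≤ j') (h : j % 2 = j' % 2) :
    gr (addCliques G S j) ∅ = gr (addCliques G S j') ∅ := by
  have key : ∀ d k, 2 * (Nat.card V + Nat.card W) + (tch S).ncard + 2 ≤ k →
      gr (addCliques G S (k + 2 * d)) ∅ = gr (addCliques G S k) ∅ := by
    intro d
    induction d with
    | zero => intro k _; rfl
    | succ d ih =>
      intro k hk
      rw [show k + 2 * (d + 1) = (k + 2 * d) + 2 by ring, gr_period' G S _ (by omega), ih k hk]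
  rcases Nat.le_total j j' with hle | hle
  · obtain ⟨d, hd⟩ : ∃ d, j' = j + 2 * d := ⟨(j' - j) / 2, by omega⟩
    rw [hd, key d j hj]
  · obtain ⟨d, hd⟩ : ∃ d, j = j' + 2 * d := ⟨(j - j') / 2, by omega⟩
    rw [hd, key d j' hj']

end Pool.Agent.NDG61
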