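import Pool.Agent.NDG25.Game

/-!
The effect of a move on the numbers of undominated leaf and non-leaf neighbours, and on the
nim-sum (after helper25, Pool/Agent/NDG25/Count.lean and Key.lean).
-/

namespace Pool.Agent.NDG61

open Pool.Agent.NDG25


variable {V : Type*} [Finite V] (G : SimpleGraph V)

/-- Number of undominated leaf neighbours of `v`. -/
noncomputable def lf (D : Set V) (v : V) : ℕ := {x | G.Adj v x ∧ IsLeaf G x ∧ x ∈ und G D}.ncard

/-- Number of undominated non-leaf neighbours of `v`. -/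
noncomputable def dn (D : Set V) (v : V) : ℕ :=
  {x | G.Adj v x ∧ ¬ IsLeaf G x ∧ x ∈ und G D}.ncard

/-- No two leaves are adjacent. -/
def NoK2 : Prop := ∀ x y, G.Adj x y → IsLeaf G x → ¬ IsLeaf G y

omit [Finite V] in
theorem leaf_unique {x v w : V} (hx : IsLeaf G x) (hv : G.Adj v x) (hw : G.Adj w x) : v = w :=
  hx.unique hv.symm hw.symm

theorem dn_le (D : Set V) (y w : V) : dn G (insert y D) w ≤ dn G D w := by
  apply Set.ncard_le_ncard _ (Set.toFinite _)
  rintro x ⟨h1, h2, h3⟩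
  exact ⟨h1, h2, ((mem_und_insert G D y x).1 h3).1⟩

theorem dn_lt (D : Set V) (y w c : V) (hwc : G.Adj w c) (hc : ¬ IsLeaf G c) (hcD : c ∈ und G D)
    (hyc : InNbhd G y c) : dn G (insert y D) w + 1 ≤ dn G D w := by
  apply Nat.succ_le_of_lt
  apply Set.ncard_lt_ncard _ (Set.toFinite _)
  refine ⟨?_, ?_⟩
  · rintro x ⟨h1, h2, h3⟩
    exact ⟨h1, h2, ((mem_und_insert G D y x).1 h3).1⟩
  · intro h
    have := h (show c ∈ {x | G.Adj w x ∧ ¬ IsLeaf G x ∧ x ∈ und G D} from ⟨hwc, hc, hcD⟩)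
    exact ((mem_und_insert G D y c).1 this.2.2).2 hyc

omit [Finite V] in
theorem lf_inner_self (D : Set V) (v : V) : lf G (insert v D) v = 0 := by
  have : {x | G.Adj v x ∧ IsLeaf G x ∧ x ∈ und G (insert v D)} = ∅ := by
    apply Set.eq_empty_of_forall_notMem
    rintro x ⟨h1, h2, h3⟩
    exact ((mem_und_insert G D v x).1 h3).2 (Or.inr h1)
  rw [lf, this, Set.ncard_empty]

omit [Finite V] in
theorem dn_inner_self (D : Set V) (v : V) : dn G (insert v D) v = 0 := by
  have : {x | G.Adj v x ∧ ¬ IsLeaf G x ∧ x ∈ und G (insert v D)} = ∅ := by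
    apply Set.eq_empty_of_forall_notMem
    rintro x ⟨h1, h2, h3⟩
    exact ((mem_und_insert G D v x).1 h3).2 (Or.inr h1)
  rw [dn, this, Set.ncard_empty]

omit [Finite V] in
theorem lf_inner_other (D : Set V) (v w : V) (hv : ¬ IsLeaf G v) (hwv : w ≠ v) :
    lf G (insert v D) w = lf G D w := by
  unfold lf
  congr 1
  ext x
  constructor
  · rintro ⟨h1, h2, h3⟩
    exact ⟨h1, h2, ((mem_und_insert G D v x).1 h3).1⟩
  · rintro ⟨h1, h2, h3⟩
    refine ⟨h1, h2, (mem_und_insert G D v x).2 ⟨h3, ?_⟩⟩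
    rintro (rfl | h)
    · exact hv h2
    · exact hwv (leaf_unique G h2 h1 h)

omit [Finite V] in
theorem inNbhd_leaf {x c u : V} (hx : IsLeaf G x) (hc : G.Adj c x) :
    InNbhd G x u ↔ u = x ∨ u = c := by
  constructor
  · rintro (h | h)
    · exact Or.inl h
    · exact Or.inr (hx.unique h hc.symm)
  · rintro (h | h)
    · exact Or.inl h
    · exact Or.inr (h ▸ hc.symm)

omit [Finite V] in
theorem lf_leaf_other (hK : NoK2 G) (D : Set V) (x c w : V) (hx : IsLeaf G x) (hc : G.Adj c x)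
    (hwc : w ≠ c) : lf G (insert x D) w = lf G D w := by
  unfold lf
  congr 1
  ext y
  constructor
  · rintro ⟨h1, h2, h3⟩
    exact ⟨h1, h2, ((mem_und_insert G D x y).1 h3).1⟩
  · rintro ⟨h1, h2, h3⟩
    refine ⟨h1, h2, (mem_und_insert G D x y).2 ⟨h3, ?_⟩⟩
    rw [inNbhd_leaf G hx hc]
    rintro (rfl | rfl)
    · exact hwc (leaf_unique G hx h1 hc)
    · exact hK x y hc.symm hx h2

omit [Finite V] in
theorem lf_leaf_self (hK : NoK2 G) (D : Set V) (x c : V) (hx : IsLeaf G x) (hc : G.Adj c x)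
    (hxD : x ∈ und G D) : lf G (insert x D) c = lf G D c - 1 := by
  have : {y | G.Adj c y ∧ IsLeaf G y ∧ y ∈ und G (insert x D)} =
      {y | G.Adj c y ∧ IsLeaf G y ∧ y ∈ und G D} \ {x} := by
    ext y
    constructor
    · rintro ⟨h1, h2, h3⟩
      have h4 := (mem_und_insert G D x y).1 h3
      refine ⟨⟨h1, h2, h4.1⟩, ?_⟩
      rintro rfl
      exact h4.2 (Or.inl rfl)
    · rintro ⟨⟨h1, h2, h3⟩, h4⟩
      refine ⟨h1, h2, (mem_und_insert G D x y).2 ⟨h3, ?_⟩⟩
      rw [inNbhd_leaf G hx hc]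
      rintro (rfl | rfl)
      · exact h4 rfl
      · exact hK x y hc.symm hx h2
  rw [lf, this, lf]
  exact Set.ncard_sdiff_singleton_of_mem (show x ∈ {y | G.Adj c y ∧ IsLeaf G y ∧ y ∈ und G D} from
    ⟨hc, hx, hxD⟩)

theorem exists_leaf (D : Set V) (v : V) (h : 1 ≤ lf G D v) :
    ∃ x, G.Adj v x ∧ IsLeaf G x ∧ x ∈ und G D := by
  have := (Set.ncard_pos (Set.toFinite _)).1 (show 0 < lf G D v from h)
  exact this

theorem lf_pos (D : Set V) (v x : V) (h1 : G.Adj v x) (h2 : IsLeaf G x) (h3 : x ∈ und G D) :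
    1 ≤ lf G D v :=
  (Set.ncard_pos (Set.toFinite _)).2 ⟨x, h1, h2, h3⟩

theorem dn_pos (D : Set V) (v x : V) (h1 : G.Adj v x) (h2 : ¬ IsLeaf G x) (h3 : x ∈ und G D) :
    1 ≤ dn G D v :=
  (Set.ncard_pos (Set.toFinite _)).2 ⟨x, h1, h2, h3⟩

theorem exists_dn (D : Set V) (v : V) (h : 1 ≤ dn G D v) :
    ∃ x, G.Adj v x ∧ ¬ IsLeaf G x ∧ x ∈ und G D := by
  have := (Set.ncard_pos (Set.toFinite _)).1 (show 0 < dn G D v from h)
  exact this

/-- A leaf is undominated if its neighbour is. -/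
def Full (D : Set V) : Prop :=
  ∀ c x, IsLeaf G x → G.Adj c x → c ∈ und G D → x ∈ und G D

omit [Finite V] in
theorem full_insert (D : Set V) (y : V) (h : Full G D) : Full G (insert y D) := by
  intro c x hx hcx hc
  have h1 := (mem_und_insert G D y c).1 hc
  refine (mem_und_insert G D y x).2 ⟨h c x hx hcx h1.1, ?_⟩
  rintro (rfl | h2)
  · exact h1.2 (Or.inr hcx.symm)
  · exact h1.2 (Or.inl (leaf_unique G hx hcx h2))


section Nim

open Classical

variable {V : Type*} [Fintype V] (G : SimpleGraph V)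

/-- The group of nimbers below 4. -/
abbrev A : Type := ZMod 2 × ZMod 2

/-- The Grundy value of a star with `n` leaves whose centre is dominated. -/
def s (n : ℕ) : A := if n = 0 then 0 else if n % 2 = 1 then (1, 0) else (0, 1)

/-- The number of a nimber. -/
def val (p : A) : ℕ := p.1.val + 2 * p.2.val

theorem val_inj : ∀ p q : A, val p = val q → p = q := by decide

theorem s_ne (n : ℕ) (h : 1 ≤ n) : s n ≠ 0 := by
  unfold s
  rw [if_neg (by omega)]
  split_ifs <;> decide

theorem s_pred (n : ℕ) (h : 2 ≤ n) : s n + s (n - 1) = (1, 1) := by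
  unfold s
  rcases Nat.mod_two_eq_zero_or_one n with h1 | h1
  · rw [if_neg (show ¬ n = 0 by omega), if_neg (show ¬ n % 2 = 1 by omega),
      if_neg (show ¬ n - 1 = 0 by omega), if_pos (show (n - 1) % 2 = 1 by omega)]
    decide
  · rw [if_neg (show ¬ n = 0 by omega), if_pos h1,
      if_neg (show ¬ n - 1 = 0 by omega), if_neg (show ¬ (n - 1) % 2 = 1 by omega)]
    decide

theorem s_one : s 1 + s 0 = (1, 0) := by decide

theorem s_fst (n : ℕ) (h : (s n).1 ≠ 0) : s n = (1, 0) ∧ 1 ≤ n := by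
  unfold s at h ⊢
  split_ifs at h ⊢ with h1 h2
  · exact absurd rfl h
  · exact ⟨rfl, by omega⟩
  · exact absurd rfl h

theorem s_snd (n : ℕ) (h : (s n).2 ≠ 0) : s n = (0, 1) ∧ 2 ≤ n := by
  unfold s at h ⊢
  split_ifs at h ⊢ with h1 h2
  · exact absurd rfl h
  · exact absurd rfl h
  · exact ⟨rfl, by omega⟩

/-- The summand of the vertex `v`. -/
noncomputable def term (D : Set V) (v : V) : A := if IsLeaf G v then 0 else s (lf G D v)

/-- The nim-sum over all non-leaf vertices. -/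
noncomputable def X (D : Set V) : A := ∑ v, term G D v

theorem A_add_self : ∀ a : A, a + a = 0 := by decide

omit G in
theorem sum_change (f f' : V → A) (v : V) (h : ∀ w, w ≠ v → f' w = f w) :
    ∑ w, f' w = ∑ w, f w + f v + f' v := by
  rw [← Finset.add_sum_erase Finset.univ f (Finset.mem_univ v),
    ← Finset.add_sum_erase Finset.univ f' (Finset.mem_univ v)]
  have : ∑ w ∈ Finset.univ.erase v, f' w = ∑ w ∈ Finset.univ.erase v, f w :=
    Finset.sum_congr rfl fun w hw => h w (Finset.ne_of_mem_erase hw)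
  rw [this]
  have h2 := A_add_self (f v)
  calc f' v + ∑ w ∈ Finset.univ.erase v, f w
      = (f v + f v) + (f' v + ∑ w ∈ Finset.univ.erase v, f w) := by rw [h2, zero_add]
    _ = f v + ∑ w ∈ Finset.univ.erase v, f w + f v + f' v := by abel

theorem X_inner (D : Set V) (v : V) (hv : ¬ IsLeaf G v) :
    X G (insert v D) = X G D + s (lf G D v) := by
  unfold X
  rw [sum_change (term G D) (term G (insert v D)) v]
  · have h1 : term G D v = s (lf G D v) := if_neg hv
    have h2 : term G (insert v D) v = 0 := by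
      rw [term, if_neg hv, lf_inner_self]; rfl
    rw [h1, h2, add_zero]
  · intro w hw
    unfold term
    split_ifs with h
    · rfl
    · rw [lf_inner_other G D v w hv hw]

theorem X_leaf (hK : NoK2 G) (D : Set V) (x c : V) (hx : IsLeaf G x) (hc : G.Adj c x)
    (hxD : x ∈ und G D) :
    X G (insert x D) = X G D + (s (lf G D c) + s (lf G D c - 1)) := by
  have hcl : ¬ IsLeaf G c := hK x c hc.symm hx
  unfold X
  rw [sum_change (term G D) (term G (insert x D)) c]
  · have h1 : term G D c = s (lf G D c) := if_neg hcl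
    have h2 : term G (insert x D) c = s (lf G D c - 1) := by
      rw [term, if_neg hcl, lf_leaf_self G hK D x c hx hc hxD]
    rw [h1, h2, add_assoc]
  · intro w hw
    unfold term
    split_ifs with h
    · rfl
    · rw [lf_leaf_other G hK D x c w hx hc hw]

theorem exists_odd (D : Set V) (h : (X G D).1 ≠ 0) :
    ∃ v, ¬ IsLeaf G v ∧ s (lf G D v) = (1, 0) ∧ 1 ≤ lf G D v := by
  by_contra hcon
  apply h
  unfold X
  rw [Prod.fst_sum]
  apply Finset.sum_eq_zero
  intro v _
  by_contra hv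
  unfold term at hv
  split_ifs at hv with hl
  · exact hv rfl
  · exact hcon ⟨v, hl, s_fst _ hv⟩

theorem exists_even (D : Set V) (h : (X G D).2 ≠ 0) :
    ∃ v, ¬ IsLeaf G v ∧ s (lf G D v) = (0, 1) ∧ 2 ≤ lf G D v := by
  by_contra hcon
  apply h
  unfold X
  rw [Prod.snd_sum]
  apply Finset.sum_eq_zero
  intro v _
  by_contra hv
  unfold term at hv
  split_ifs at hv with hl
  · exact hv rfl
  · exact hcon ⟨v, hl, s_snd _ hv⟩

theorem legal_inner (D : Set V) (v : V) (h : 1 ≤ lf G D v) : Legal G D v := by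
  obtain ⟨x, h1, h2, h3⟩ := exists_leaf G D v h
  exact (legal_iff G D v).2 ⟨x, h3, Or.inr h1⟩

omit [Fintype V] in
theorem legal_leaf (D : Set V) (x : V) (h : x ∈ und G D) : Legal G D x :=
  (legal_iff G D x).2 ⟨x, h, Or.inl rfl⟩

theorem A_ne (a b : A) (hb : b ≠ 0) : val (a + b) ≠ val a := by
  intro h
  apply hb
  have := val_inj _ _ h
  exact left_eq_add.1 this.symm


end Nim

end Pool.Agent.NDG61
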