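import Mathlib

/-! Sequences of minimal excluded values. -/

namespace Pool.Agent.NDG61

/-- A step in a sequence of minimal excluded values. -/
theorem seq_step (O : ℕ → Set ℕ) (x : ℕ → ℕ) (T : ℕ)
    (h0 : ∀ k, T ≤ k → O (k + 2) = O k)
    (h1 : ∀ k, T ≤ k → x k ∉ O k)
    (h2 : ∀ k, T ≤ k → x k ≠ x (k - 1))
    (h3 : ∀ k, T ≤ k → ∀ m, m < x k → m ∈ O k ∨ m = x (k - 1)) :
    (∀ k, T ≤ k → x (k + 2) ≤ x k) ∧
    (∀ k, T ≤ k → x (k + 2) < x k → x (k + 2) = x (k - 1)) := by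
  have hle : ∀ k, T ≤ k → x (k + 2) ≤ x k := by
    intro k hk
    by_contra hlt
    push Not at hlt
    rcases h3 (k + 2) (by omega) (x k) hlt with h | h
    · rw [h0 k hk] at h
      exact h1 k hk h
    · have := h2 (k + 1) (by omega)
      rw [show k + 1 - 1 = k by omega] at this
      rw [show k + 2 - 1 = k + 1 by omega] at h
      exact this h.symm
  refine ⟨hle, fun k hk hlt => ?_⟩
  rcases h3 k hk (x (k + 2)) hlt with h | h
  · rw [← h0 k hk] at h
    exact absurd h (h1 (k + 2) (by omega))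
  · exact h

/-- Three strict steps give a contradiction. -/
theorem seq_per (O : ℕ → Set ℕ) (x : ℕ → ℕ) (T : ℕ)
    (h0 : ∀ k, T ≤ k → O (k + 2) = O k)
    (h1 : ∀ k, T ≤ k → x k ∉ O k)
    (h2 : ∀ k, T ≤ k → x k ≠ x (k - 1))
    (h3 : ∀ k, T ≤ k → ∀ m, m < x k → m ∈ O k ∨ m = x (k - 1)) :
    ∀ k, T + 2 ≤ k → x (k + 2) = x k := by
  obtain ⟨hle, heq⟩ := seq_step O x T h0 h1 h2 h3
  have hs : ∀ k, T + 1 ≤ k → x (k + 2) < x k → x (k + 1) < x (k - 1) := by
    intro k hk hlt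
    have e1 := heq k (by omega) hlt
    have e2 := hle (k - 1) (by omega)
    rw [show k - 1 + 2 = k + 1 by omega] at e2
    have e3 := h2 (k + 2) (by omega)
    rw [show k + 2 - 1 = k + 1 by omega] at e3
    rw [← e1] at e2 ⊢
    omega
  intro k hk
  rcases Nat.lt_or_ge (x (k + 2)) (x k) with hlt | hge
  · exfalso
    have a1 := heq k (by omega) hlt
    have b1 := hs k (by omega) hlt
    obtain ⟨l, rfl⟩ : ∃ l, k = l + 2 := ⟨k - 2, by omega⟩
    have b1' : x (l + 1 + 2) < x (l + 1) := b1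
    have a2 := heq (l + 1) (by omega) b1'
    have b2 := hs (l + 1) (by omega) b1'
    have b2' : x (l + 2) < x l := b2
    have a3 := heq l (by omega) b2'
    simp only [show l + 2 + 2 = l + 4 by omega, show l + 2 - 1 = l + 1 by omega,
      show l + 1 + 2 = l + 3 by omega, show l + 1 - 1 = l by omega] at *
    omega
  · exact le_antisymm (hle k (by omega)) hge

end Pool.Agent.NDG61
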