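import Pool.Agent.NDG61.CDefs
import Pool.Agent.NDG61.Seq

/-! The abstract recursion for attached cliques. -/

namespace Pool.Agent.NDG61

open Pool.Agent.NDG25

variable {V W : Type*} (G : SimpleGraph V) (S : W → Set V)

/-- The closed neighbourhood as a set. -/
def nbh (a : V) : Set V := {x | InNbhd G a x}

/-- The vertices of a clique that are joined to `a`. -/
def kil (a : V) : Set W := {w | a ∈ S w}

/-- The old vertex `a` is a legal move. -/
def Leg1 (U : Set V) (R : Set W) (k : ℕ) (a : V) : Prop :=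
  (∃ x ∈ U, x ∈ nbh G a) ∨ (1 ≤ k ∧ ∃ w ∈ R, w ∈ kil S a)

/-- The vertex `w` of a clique without chosen vertex is a legal move. -/
def Leg2 (U : Set V) (R : Set W) (k : ℕ) (w : W) : Prop :=
  1 ≤ k ∧ ((∃ w', w' ∈ R) ∨ ∃ x ∈ U, x ∈ S w)

/-- The vertex `w` of a clique with a chosen vertex is a legal move. -/
def Leg3 (U : Set V) (d : Bool) (w : W) : Prop := d = true ∧ ∃ x ∈ U, x ∈ S w

variable [Finite V] [Finite W]

omit [Finite W] in
theorem lt1 (U T : Set V) (h : ∃ x ∈ U, x ∈ T) : (U \ T).ncard < U.ncard := by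
  obtain ⟨x, hx, hxT⟩ := h
  apply Set.ncard_lt_ncard _ (Set.toFinite _)
  exact ⟨Set.sdiff_subset, fun h => (h hx).2 hxT⟩

omit [Finite W] in
theorem le1 (U T : Set V) : (U \ T).ncard ≤ U.ncard :=
  Set.ncard_le_ncard Set.sdiff_subset (Set.toFinite _)

theorem decA (U : Set V) (R : Set W) (k : ℕ) (a : V) (h : Leg1 G S U R k a) :
    (U \ nbh G a).ncard + (R \ kil S a).ncard < U.ncard + R.ncard := by
  have h1 := le1 U (nbh G a)
  have h2 := le1 R (kil S a)
  rcases h with h | ⟨_, h⟩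
  · have := lt1 U (nbh G a) h
    omega
  · have := lt1 R (kil S a) h
    omega

/-- The Grundy value of the state `(U, R, k, d)`. -/
noncomputable def Psi {V W : Type*} [Finite V] [Finite W] (G : SimpleGraph V) (S : W → Set V)
    (U : Set V) (R : Set W) (k : ℕ) (d : Bool) : ℕ :=
  sInf {m : ℕ |
    (∀ a : {a : V // Leg1 G S U R k a}, Psi G S (U \ nbh G a.1) (R \ kil S a.1) k d ≠ m) ∧
    (∀ w : {w : W // Leg2 S U R k w}, Psi G S (U \ S w.1) R (k - 1) true ≠ m) ∧
    (∀ w : {w : W // Leg3 S U d w}, Psi G S (U \ S w.1) R k true ≠ m)}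
termination_by U.ncard + R.ncard + k
decreasing_by
  · have := decA G S U R k a.1 a.2
    omega
  · have := le1 U (S w.1)
    have := w.2.1
    omega
  · have := lt1 U (S w.1) w.2.2
    omega

/-- `m` is the value of an option of the state. -/
def IsOpt (U : Set V) (R : Set W) (k : ℕ) (d : Bool) (m : ℕ) : Prop :=
  (∃ a, Leg1 G S U R k a ∧ Psi G S (U \ nbh G a) (R \ kil S a) k d = m) ∨
  (∃ w, Leg2 S U R k w ∧ Psi G S (U \ S w) R (k - 1) true = m) ∨
  (∃ w, Leg3 S U d w ∧ Psi G S (U \ S w) R k true = m)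

theorem mem_iff (U : Set V) (R : Set W) (k : ℕ) (d : Bool) (m : ℕ) :
    ((∀ a : {a : V // Leg1 G S U R k a}, Psi G S (U \ nbh G a.1) (R \ kil S a.1) k d ≠ m) ∧
    (∀ w : {w : W // Leg2 S U R k w}, Psi G S (U \ S w.1) R (k - 1) true ≠ m) ∧
    (∀ w : {w : W // Leg3 S U d w}, Psi G S (U \ S w.1) R k true ≠ m)) ↔
    ¬ IsOpt G S U R k d m := by
  constructor
  · rintro ⟨h1, h2, h3⟩ (⟨a, ha, he⟩ | ⟨w, hw, he⟩ | ⟨w, hw, he⟩)
    · exact h1 ⟨a, ha⟩ he
    · exact h2 ⟨w, hw⟩ he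
    · exact h3 ⟨w, hw⟩ he
  · intro h
    refine ⟨fun a he => h (Or.inl ⟨a.1, a.2, he⟩),
      fun w he => h (Or.inr (Or.inl ⟨w.1, w.2, he⟩)),
      fun w he => h (Or.inr (Or.inr ⟨w.1, w.2, he⟩))⟩

theorem psi_def (U : Set V) (R : Set W) (k : ℕ) (d : Bool) :
    Psi G S U R k d = sInf {m : ℕ | ¬ IsOpt G S U R k d m} := by
  rw [Psi]
  congr 1
  ext m
  exact mem_iff G S U R k d m

theorem psi_not (U : Set V) (R : Set W) (k : ℕ) (d : Bool) :
    ¬ IsOpt G S U R k d (Psi G S U R k d) := by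
  have hne : {m : ℕ | ¬ IsOpt G S U R k d m}.Nonempty := by
    have hfin : (Set.range (fun a : V => Psi G S (U \ nbh G a) (R \ kil S a) k d) ∪
        (Set.range (fun w : W => Psi G S (U \ S w) R (k - 1) true) ∪
        Set.range (fun w : W => Psi G S (U \ S w) R k true))).Finite :=
      (Set.finite_range _).union ((Set.finite_range _).union (Set.finite_range _))
    obtain ⟨m, hm⟩ := hfin.exists_notMem
    refine ⟨m, ?_⟩
    rintro (⟨a, _, he⟩ | ⟨w, _, he⟩ | ⟨w, _, he⟩)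
    · exact hm (Or.inl ⟨a, he⟩)
    · exact hm (Or.inr (Or.inl ⟨w, he⟩))
    · exact hm (Or.inr (Or.inr ⟨w, he⟩))
  have := Nat.sInf_mem hne
  rw [← psi_def] at this
  exact this

theorem psi_lt (U : Set V) (R : Set W) (k : ℕ) (d : Bool) (m : ℕ)
    (h : m < Psi G S U R k d) : IsOpt G S U R k d m := by
  rw [psi_def] at h
  have := Nat.notMem_of_lt_sInf h
  by_contra hcon
  exact this hcon

theorem psi_congr (U U' : Set V) (R R' : Set W) (k k' : ℕ) (d d' : Bool)
    (h : ∀ m, IsOpt G S U R k d m ↔ IsOpt G S U' R' k' d' m) :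
    Psi G S U R k d = Psi G S U' R' k' d' := by
  rw [psi_def, psi_def]
  congr 1
  ext m
  exact not_congr (h m)

end Pool.Agent.NDG61
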