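import Mathlib

/-! Arithmetic of the positions with a dominated centre. -/

namespace Pool.Agent.NDG61

/-- First bit of the value of a star with `j` leaves. -/
def s1 (j : ℕ) : ℕ := j % 2
/-- Second bit. -/
def s2 (j : ℕ) : ℕ := if j = 0 then 0 else (j + 1) % 2

/-- The exceptional positions (value at least 4). -/
def sp (j a b : ℕ) : Prop := j = 1 ∧ b = a + 1

/-- First bit of the correction. -/
def e1 (j a b : ℕ) : ℕ :=
  if 3 ≤ j then 0 else if j = 2 then (if b ≤ 1 then 0 else 1) else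
  if j = 1 then (if b ≤ a then 0 else 1) else (if 0 < b then 1 else 0)
/-- Second bit of the correction. -/
def e2 (j a b : ℕ) : ℕ :=
  if 3 ≤ j then 0 else if j = 2 then 0 else
  if j = 1 then (if b ≤ a then 0 else 1) else (if 0 < a then 1 else 0)

/-- The shifts `(z1, z2)` of the nim-sum that are reached by a move in the main part. -/
def P (j a b z1 z2 : ℕ) : Prop :=
  ((1 ≤ j ∨ 1 ≤ a ∨ 1 ≤ b) ∧ z1 = s1 j ∧ z2 = s2 j) ∨
  (1 ≤ a ∧ ¬ sp j (a - 1) b ∧ z1 = (1 + e1 j (a - 1) b) % 2 ∧ z2 = e2 j (a - 1) b) ∨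
  (1 ≤ a ∧ ¬ sp j (a - 1) b ∧ z1 = (1 + e1 j (a - 1) b) % 2 ∧
    z2 = (1 + e2 j (a - 1) b) % 2) ∨
  (1 ≤ b ∧ ¬ sp j a (b - 1) ∧ z1 = e1 j a (b - 1) ∧ z2 = (1 + e2 j a (b - 1)) % 2) ∨
  (1 ≤ b ∧ ¬ sp j a (b - 1) ∧ z1 = (1 + e1 j a (b - 1)) % 2 ∧
    z2 = (1 + e2 j a (b - 1)) % 2) ∨
  (1 ≤ j ∧ ¬ sp (j - 1) a b ∧ z1 = (s1 j + s1 (j - 1) + e1 (j - 1) a b) % 2 ∧
    z2 = (s2 j + s2 (j - 1) + e2 (j - 1) a b) % 2)

theorem j_cases (j : ℕ) : j = 0 ∨ j = 1 ∨ j = 2 ∨ j = 3 ∨ 4 ≤ j := by omega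

theorem e1_ge (j a b : ℕ) (h : 3 ≤ j) : e1 j a b = 0 := by unfold e1; rw [if_pos h]
theorem e2_ge (j a b : ℕ) (h : 3 ≤ j) : e2 j a b = 0 := by unfold e2; rw [if_pos h]
theorem e_2 (a b : ℕ) : (b ≤ 1 ∧ e1 2 a b = 0 ∧ e2 2 a b = 0) ∨
    (2 ≤ b ∧ e1 2 a b = 1 ∧ e2 2 a b = 0) := by
  have h1 : e1 2 a b = if b ≤ 1 then 0 else 1 := rfl
  have h2 : e2 2 a b = 0 := rfl
  by_cases h : b ≤ 1
  · rw [if_pos h] at h1; exact Or.inl ⟨h, h1, h2⟩
  · rw [if_neg h] at h1; exact Or.inr ⟨by omega, h1, h2⟩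
theorem e_1 (a b : ℕ) : (b ≤ a ∧ e1 1 a b = 0 ∧ e2 1 a b = 0) ∨
    (a + 1 ≤ b ∧ e1 1 a b = 1 ∧ e2 1 a b = 1) := by
  have h1 : e1 1 a b = if b ≤ a then 0 else 1 := rfl
  have h2 : e2 1 a b = if b ≤ a then 0 else 1 := rfl
  by_cases h : b ≤ a
  · rw [if_pos h] at h1 h2; exact Or.inl ⟨h, h1, h2⟩
  · rw [if_neg h] at h1 h2; exact Or.inr ⟨by omega, h1, h2⟩
theorem e_0 (a b : ℕ) : (b = 0 ∧ a = 0 ∧ e1 0 a b = 0 ∧ e2 0 a b = 0) ∨
    (b = 0 ∧ 1 ≤ a ∧ e1 0 a b = 0 ∧ e2 0 a b = 1) ∨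
    (1 ≤ b ∧ a = 0 ∧ e1 0 a b = 1 ∧ e2 0 a b = 0) ∨
    (1 ≤ b ∧ 1 ≤ a ∧ e1 0 a b = 1 ∧ e2 0 a b = 1) := by
  have h1 : e1 0 a b = if 0 < b then 1 else 0 := rfl
  have h2 : e2 0 a b = if 0 < a then 1 else 0 := rfl
  by_cases h : 0 < b
  · by_cases h' : 0 < a
    · rw [if_pos h] at h1; rw [if_pos h'] at h2
      exact Or.inr (Or.inr (Or.inr ⟨h, h', h1, h2⟩))
    · rw [if_pos h] at h1; rw [if_neg h'] at h2
      exact Or.inr (Or.inr (Or.inl ⟨h, by omega, h1, h2⟩))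
  · by_cases h' : 0 < a
    · rw [if_neg h] at h1; rw [if_pos h'] at h2
      exact Or.inr (Or.inl ⟨by omega, h', h1, h2⟩)
    · rw [if_neg h] at h1; rw [if_neg h'] at h2
      exact Or.inl ⟨by omega, by omega, h1, h2⟩
theorem s2_pos (j : ℕ) (h : 1 ≤ j) : s2 j = (j + 1) % 2 := by
  unfold s2; rw [if_neg (by omega)]
theorem s2_zero : s2 0 = 0 := rfl

/-- No move in the main part keeps the corrected nim-sum. -/
theorem num_ne (j a b : ℕ) (h : ¬ sp j a b) : ¬ P j a b (e1 j a b) (e2 j a b) := by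
  have f0 := s2_zero
  have f1 := s2_pos 1 (by omega)
  have f2 := s2_pos 2 (by omega)
  have f3 := s2_pos 3 (by omega)
  unfold sp at h
  unfold P sp s1
  rcases j_cases j with rfl | rfl | rfl | rfl | hj
  · have g1 := e_0 a b
    have g2 := e_0 (a - 1) b
    have g3 := e_0 a (b - 1)
    rintro (h1 | h1 | h1 | h1 | h1 | h1) <;> omega
  · have g1 := e_1 a b
    have g2 := e_1 (a - 1) b
    have g3 := e_1 a (b - 1)
    have g4 := e_0 a b
    rw [show (1 : ℕ) - 1 = 0 from rfl]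
    rintro (h1 | h1 | h1 | h1 | h1 | h1) <;> omega
  · have g1 := e_2 a b
    have g2 := e_2 (a - 1) b
    have g3 := e_2 a (b - 1)
    have g4 := e_1 a b
    rw [show (2 : ℕ) - 1 = 1 from rfl]
    rintro (h1 | h1 | h1 | h1 | h1 | h1) <;> omega
  · have g1 := e1_ge 3 a b (le_refl 3)
    have g2 := e2_ge 3 a b (le_refl 3)
    have g3 := e1_ge 3 (a - 1) b (le_refl 3)
    have g4 := e2_ge 3 (a - 1) b (le_refl 3)
    have g5 := e1_ge 3 a (b - 1) (le_refl 3)
    have g6 := e2_ge 3 a (b - 1) (le_refl 3)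
    have g7 := e_2 a b
    rw [show (3 : ℕ) - 1 = 2 from rfl]
    rintro (h1 | h1 | h1 | h1 | h1 | h1) <;> omega
  · rw [s2_pos j (by omega), s2_pos (j - 1) (by omega)]
    simp only [e1_ge j _ _ (show 3 ≤ j by omega), e2_ge j _ _ (show 3 ≤ j by omega),
      e1_ge (j - 1) _ _ (show 3 ≤ j - 1 by omega), e2_ge (j - 1) _ _ (show 3 ≤ j - 1 by omega)]
    rintro (h1 | h1 | h1 | h1 | h1 | h1) <;> omega

/-- In an exceptional position all shifts are reached. -/
theorem num_sp (a z1 z2 : ℕ) (h1 : z1 < 2) (h2 : z2 < 2) : P 1 a (a + 1) z1 z2 := by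
  have hz1 : z1 = 0 ∨ z1 = 1 := by omega
  have hz2 : z2 = 0 ∨ z2 = 1 := by omega
  have f0 := s2_zero
  have f1 := s2_pos 1 (by omega)
  have g2 := e_1 (a - 1) (a + 1)
  have g3 := e_1 a a
  have g4 := e_0 a (a + 1)
  unfold P sp s1
  simp only [show 1 - 1 = 0 from rfl, show a + 1 - 1 = a by omega]
  rcases hz1 with rfl | rfl <;> rcases hz2 with rfl | rfl <;>
    rcases Nat.eq_zero_or_pos a with ha | ha <;>
    first
      | (exfalso; omega)
      | exact Or.inl (by omega)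
      | exact Or.inr (Or.inl (by omega))
      | exact Or.inr (Or.inr (Or.inl (by omega)))
      | exact Or.inr (Or.inr (Or.inr (Or.inl (by omega))))
      | exact Or.inr (Or.inr (Or.inr (Or.inr (Or.inl (by omega)))))
      | exact Or.inr (Or.inr (Or.inr (Or.inr (Or.inr (by omega)))))

/-- The smaller values are reached. -/
theorem num_lt (j a b x1 x2 : ℕ) (h : ¬ sp j a b) (h1 : x1 < 2) (h2 : x2 < 2)
    (hx : (x2 = 1 ∧ (s2 j + b + e2 j a b) % 2 = 1) ∨
      (x2 = 0 ∧ x1 = 1 ∧ (s1 j + a + e1 j a b) % 2 = 1)) :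
    P j a b ((e1 j a b + x1) % 2) ((e2 j a b + x2) % 2) := by
  have hx1 : x1 = 0 ∨ x1 = 1 := by omega
  have hx2 : x2 = 0 ∨ x2 = 1 := by omega
  have f0 := s2_zero
  have f1 := s2_pos 1 (by omega)
  have f2 := s2_pos 2 (by omega)
  have f3 := s2_pos 3 (by omega)
  unfold sp at h
  unfold s1 at hx
  unfold P sp s1
  rcases j_cases j with rfl | rfl | rfl | rfl | hj
  · have g1 := e_0 a b
    have g2 := e_0 (a - 1) b
    have g3 := e_0 a (b - 1)
    rcases hx1 with rfl | rfl <;> rcases hx2 with rfl | rfl <;> rcases g1 with g1 | g1 | g1 | g1 <;>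
    rcases g2 with g2 | g2 | g2 | g2 <;> rcases g3 with g3 | g3 | g3 | g3 <;>
    first
      | (exfalso; omega)
      | exact Or.inl (by omega)
      | exact Or.inr (Or.inl (by omega))
      | exact Or.inr (Or.inr (Or.inl (by omega)))
      | exact Or.inr (Or.inr (Or.inr (Or.inl (by omega))))
      | exact Or.inr (Or.inr (Or.inr (Or.inr (Or.inl (by omega)))))
      | exact Or.inr (Or.inr (Or.inr (Or.inr (Or.inr (by omega)))))
  · have g1 := e_1 a b
    have g2 := e_1 (a - 1) b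
    have g3 := e_1 a (b - 1)
    have g4 := e_0 a b
    rw [show (1 : ℕ) - 1 = 0 from rfl]
    rcases hx1 with rfl | rfl <;> rcases hx2 with rfl | rfl <;> rcases g1 with g1 | g1 <;>
    rcases g2 with g2 | g2 <;> rcases g3 with g3 | g3 <;> rcases g4 with g4 | g4 | g4 | g4 <;>
    first
      | (exfalso; omega)
      | exact Or.inl (by omega)
      | exact Or.inr (Or.inl (by omega))
      | exact Or.inr (Or.inr (Or.inl (by omega)))
      | exact Or.inr (Or.inr (Or.inr (Or.inl (by omega))))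
      | exact Or.inr (Or.inr (Or.inr (Or.inr (Or.inl (by omega)))))
      | exact Or.inr (Or.inr (Or.inr (Or.inr (Or.inr (by omega)))))
  · have g1 := e_2 a b
    have g2 := e_2 (a - 1) b
    have g3 := e_2 a (b - 1)
    have g4 := e_1 a b
    rw [show (2 : ℕ) - 1 = 1 from rfl]
    rcases hx1 with rfl | rfl <;> rcases hx2 with rfl | rfl <;> rcases g1 with g1 | g1 <;>
    rcases g2 with g2 | g2 <;> rcases g3 with g3 | g3 <;> rcases g4 with g4 | g4 <;>
    rcases Nat.eq_zero_or_pos a with ha | ha <;>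
    first
      | (exfalso; omega)
      | exact Or.inl (by omega)
      | exact Or.inr (Or.inl (by omega))
      | exact Or.inr (Or.inr (Or.inl (by omega)))
      | exact Or.inr (Or.inr (Or.inr (Or.inl (by omega))))
      | exact Or.inr (Or.inr (Or.inr (Or.inr (Or.inl (by omega)))))
      | exact Or.inr (Or.inr (Or.inr (Or.inr (Or.inr (by omega)))))
  · have g1 := e1_ge 3 a b (le_refl 3)
    have g2 := e2_ge 3 a b (le_refl 3)
    have g3 := e1_ge 3 (a - 1) b (le_refl 3)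
    have g4 := e2_ge 3 (a - 1) b (le_refl 3)
    have g5 := e1_ge 3 a (b - 1) (le_refl 3)
    have g6 := e2_ge 3 a (b - 1) (le_refl 3)
    have g7 := e_2 a b
    rw [show (3 : ℕ) - 1 = 2 from rfl]
    rcases hx1 with rfl | rfl <;> rcases hx2 with rfl | rfl <;> rcases g7 with g7 | g7 <;>
    first
      | (exfalso; omega)
      | exact Or.inl (by omega)
      | exact Or.inr (Or.inl (by omega))
      | exact Or.inr (Or.inr (Or.inl (by omega)))
      | exact Or.inr (Or.inr (Or.inr (Or.inl (by omega))))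
      | exact Or.inr (Or.inr (Or.inr (Or.inr (Or.inl (by omega)))))
      | exact Or.inr (Or.inr (Or.inr (Or.inr (Or.inr (by omega)))))
  · have hjm := Nat.mod_two_eq_zero_or_one j
    rw [s2_pos j (by omega), s2_pos (j - 1) (by omega)]
    rw [s2_pos j (by omega)] at hx
    simp only [e1_ge j _ _ (show 3 ≤ j by omega), e2_ge j _ _ (show 3 ≤ j by omega),
      e1_ge (j - 1) _ _ (show 3 ≤ j - 1 by omega),
      e2_ge (j - 1) _ _ (show 3 ≤ j - 1 by omega)] at *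
    rcases hx1 with rfl | rfl <;> rcases hx2 with rfl | rfl <;> rcases hjm with hjm | hjm <;>
    first
      | (exfalso; omega)
      | exact Or.inl (by omega)
      | exact Or.inr (Or.inl (by omega))
      | exact Or.inr (Or.inr (Or.inl (by omega)))
      | exact Or.inr (Or.inr (Or.inr (Or.inl (by omega))))
      | exact Or.inr (Or.inr (Or.inr (Or.inr (Or.inl (by omega)))))
      | exact Or.inr (Or.inr (Or.inr (Or.inr (Or.inr (by omega)))))

end Pool.Agent.NDG61
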