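import Pool.Agent.NDG61.Cnt
import Pool.Agent.NDG61.StarNum

/-! Graphs whose non-leaf vertices form a star: the positions with a dominated centre. -/

namespace Pool.Agent.NDG61

open Pool.Agent.NDG25 Classical

variable {V : Type*} [Fintype V] (G : SimpleGraph V) (c : V)

/-- The non-leaf vertices form a star with centre `c`. -/
structure StarLike : Prop where
  hK : NoK2 G
  hc : ¬ IsLeaf G c
  adj : ∀ v, ¬ IsLeaf G v → v ≠ c → G.Adj c v
  star : ∀ u v, ¬ IsLeaf G u → ¬ IsLeaf G v → G.Adj u v → u = c ∨ v = c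

/-- The undominated non-leaf vertices other than `c` with `p` mod 2 undominated leaves. -/
def SP (p : ℕ) (D : Set V) : Set V := {v | ¬ IsLeaf G v ∧ v ≠ c ∧ v ∈ und G D ∧ lf G D v % 2 = p}

/-- The invariant. -/
def Inv (D : Set V) : Prop :=
  Full G D ∧ ∀ v, ¬ IsLeaf G v → v ≠ c → v ∈ und G D → 2 ≤ lf G D v

variable {G c}

omit [Fintype V] in
theorem und_c (hS : StarLike G c) (D : Set V) (v : V) (hv : ¬ IsLeaf G v) (hvc : v ≠ c) :
    v ∉ und G (insert c D) := by
  rw [mem_und_insert]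
  exact fun h => h.2 (Or.inr (hS.adj v hv hvc))

omit [Fintype V] in
theorem und_inner (hS : StarLike G c) (D : Set V) (y v : V) (hy : ¬ IsLeaf G y) (hyc : y ≠ c)
    (hv : ¬ IsLeaf G v) (hvc : v ≠ c) : v ∈ und G (insert y D) ↔ v ∈ und G D ∧ v ≠ y := by
  rw [mem_und_insert]
  refine and_congr_right fun _ => ?_
  constructor
  · intro h h'
    exact h (Or.inl h')
  · rintro h (h' | h')
    · exact h h'
    · rcases hS.star y v hy hv h' with h2 | h2
      · exact hyc h2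
      · exact hvc h2

omit [Fintype V] in
theorem und_leaf (D : Set V) (x w v : V) (hx : IsLeaf G x) (hw : G.Adj w x)
    (hv : ¬ IsLeaf G v) : v ∈ und G (insert x D) ↔ v ∈ und G D ∧ v ≠ w := by
  rw [mem_und_insert, inNbhd_leaf G hx hw]
  refine and_congr_right fun _ => ?_
  constructor
  · intro h h'
    exact h (Or.inr h')
  · rintro h (h' | h')
    · rw [h'] at hv; exact hv hx
    · exact h h'

omit [Fintype V] in
theorem SP_c (hS : StarLike G c) (p : ℕ) (D : Set V) : SP G c p (insert c D) = ∅ := by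
  apply Set.eq_empty_of_forall_notMem
  rintro v ⟨h1, h2, h3, _⟩
  exact und_c hS D v h1 h2 h3

omit [Fintype V] in
theorem SP_inner (hS : StarLike G c) (p : ℕ) (D : Set V) (y : V) (hy : ¬ IsLeaf G y)
    (hyc : y ≠ c) : SP G c p (insert y D) = SP G c p D \ {y} := by
  ext v
  constructor
  · rintro ⟨h1, h2, h3, h4⟩
    obtain ⟨h5, h6⟩ := (und_inner hS D y v hy hyc h1 h2).1 h3
    rw [lf_inner_other G D y v hy h6] at h4
    exact ⟨⟨h1, h2, h5, h4⟩, h6⟩
  · rintro ⟨⟨h1, h2, h3, h4⟩, h5⟩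
    refine ⟨h1, h2, (und_inner hS D y v hy hyc h1 h2).2 ⟨h3, h5⟩, ?_⟩
    rw [lf_inner_other G D y v hy h5]
    exact h4

omit [Fintype V] in
theorem SP_leaf (hS : StarLike G c) (p : ℕ) (D : Set V) (x w : V) (hx : IsLeaf G x)
    (hw : G.Adj w x) : SP G c p (insert x D) = SP G c p D \ {w} := by
  ext v
  constructor
  · rintro ⟨h1, h2, h3, h4⟩
    obtain ⟨h5, h6⟩ := (und_leaf D x w v hx hw h1).1 h3
    rw [lf_leaf_other G hS.hK D x w v hx hw h6] at h4
    exact ⟨⟨h1, h2, h5, h4⟩, h6⟩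
  · rintro ⟨⟨h1, h2, h3, h4⟩, h5⟩
    refine ⟨h1, h2, (und_leaf D x w v hx hw h1).2 ⟨h3, h5⟩, ?_⟩
    rw [lf_leaf_other G hS.hK D x w v hx hw h5]
    exact h4

omit [Fintype V] in
theorem inv_c (hS : StarLike G c) (D : Set V) (h : Inv G c D) : Inv G c (insert c D) :=
  ⟨full_insert G D c h.1, fun v hv hvc h' => absurd h' (und_c hS D v hv hvc)⟩

omit [Fintype V] in
theorem inv_inner (hS : StarLike G c) (D : Set V) (y : V) (hy : ¬ IsLeaf G y) (hyc : y ≠ c)
    (h : Inv G c D) : Inv G c (insert y D) := by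
  refine ⟨full_insert G D y h.1, fun v hv hvc h' => ?_⟩
  obtain ⟨h5, h6⟩ := (und_inner hS D y v hy hyc hv hvc).1 h'
  rw [lf_inner_other G D y v hy h6]
  exact h.2 v hv hvc h5

omit [Fintype V] in
theorem inv_leaf (hS : StarLike G c) (D : Set V) (x w : V) (hx : IsLeaf G x)
    (hw : G.Adj w x) (h : Inv G c D) : Inv G c (insert x D) := by
  refine ⟨full_insert G D x h.1, fun v hv hvc h' => ?_⟩
  obtain ⟨h5, h6⟩ := (und_leaf D x w v hx hw hv).1 h'
  rw [lf_leaf_other G hS.hK D x w v hx hw h6]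
  exact h.2 v hv hvc h5

omit [Fintype V] in
theorem c_und_c (D : Set V) : c ∉ und G (insert c D) := by
  rw [mem_und_insert]
  exact fun h => h.2 (Or.inl rfl)

omit [Fintype V] in
theorem c_und_inner (hS : StarLike G c) (D : Set V) (y : V) (hy : ¬ IsLeaf G y) (hyc : y ≠ c) :
    c ∉ und G (insert y D) := by
  rw [mem_und_insert]
  exact fun h => h.2 (Or.inr (hS.adj y hy hyc).symm)

omit [Fintype V] in
theorem c_und_mono (D : Set V) (y : V) (h : c ∉ und G D) : c ∉ und G (insert y D) := by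
  rw [mem_und_insert]
  exact fun h' => h h'.1

theorem s_bits (n : ℕ) : s n = (((s1 n : ℕ) : ZMod 2), ((s2 n : ℕ) : ZMod 2)) := by
  rcases Nat.eq_zero_or_pos n with rfl | h
  · decide
  · have e : s2 n = (n + 1) % 2 := s2_pos n h
    rw [e]
    unfold s s1
    rw [if_neg (show ¬ n = 0 by omega)]
    rcases Nat.mod_two_eq_zero_or_one n with h1 | h1
    · rw [if_neg (show ¬ n % 2 = 1 by omega), h1, show (n + 1) % 2 = 1 by omega]; decide
    · rw [if_pos h1, h1, show (n + 1) % 2 = 0 by omega]; decide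

/-- The correction as a nimber. -/
def E (j a b : ℕ) : A := (((e1 j a b : ℕ) : ZMod 2), ((e2 j a b : ℕ) : ZMod 2))

variable (G c)

/-- The claim for a position with dominated centre. -/
def Q (D : Set V) : Prop :=
  (sp (lf G D c) (SP G c 1 D).ncard (SP G c 0 D).ncard → 4 ≤ gr G D) ∧
  (¬ sp (lf G D c) (SP G c 1 D).ncard (SP G c 0 D).ncard →
    gr G D = val (X G D + E (lf G D c) (SP G c 1 D).ncard (SP G c 0 D).ncard))

variable {G c}

theorem val_lt (p : A) : val p < 4 := by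
  revert p; decide

omit [Fintype V] in
theorem SP_disj (D : Set V) (v : V) (h : v ∈ SP G c 1 D) : v ∉ SP G c 0 D := by
  intro h'
  have := h.2.2.2
  have := h'.2.2.2
  omega

omit [Fintype V] in
theorem not_SP_c (p : ℕ) (D : Set V) : c ∉ SP G c p D := fun h => h.2.1 rfl

/-- The value after the choice of the centre. -/
theorem opt_c (hS : StarLike G c) (D : Set V) (hq : Q G c (insert c D)) :
    gr G (insert c D) = val (X G D + s (lf G D c)) := by
  have h := hq.2
  rw [lf_inner_self, SP_c hS, SP_c hS, Set.ncard_empty] at h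
  have h' := h (by unfold sp; omega)
  rw [h', X_inner G D c hS.hc]
  have : E 0 0 0 = 0 := by unfold E; decide
  rw [this, add_zero]

theorem opt_inner (hS : StarLike G c) (D : Set V) (y : V) (hy : ¬ IsLeaf G y) (hyc : y ≠ c)
    (hq : Q G c (insert y D)) :
    (sp (lf G D c) (SP G c 1 D \ {y}).ncard (SP G c 0 D \ {y}).ncard →
      4 ≤ gr G (insert y D)) ∧
    (¬ sp (lf G D c) (SP G c 1 D \ {y}).ncard (SP G c 0 D \ {y}).ncard →
      gr G (insert y D) = val (X G D + s (lf G D y) +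
        E (lf G D c) (SP G c 1 D \ {y}).ncard (SP G c 0 D \ {y}).ncard)) := by
  unfold Q at hq
  rw [lf_inner_other G D y c hy hyc.symm, SP_inner hS 1 D y hy hyc, SP_inner hS 0 D y hy hyc,
    X_inner G D y hy] at hq
  exact hq

theorem opt_leaf (hS : StarLike G c) (D : Set V) (x w : V) (hx : IsLeaf G x) (hw : G.Adj w x)
    (hwc : w ≠ c) (hxD : x ∈ und G D) (hq : Q G c (insert x D)) :
    (sp (lf G D c) (SP G c 1 D \ {w}).ncard (SP G c 0 D \ {w}).ncard →
      4 ≤ gr G (insert x D)) ∧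
    (¬ sp (lf G D c) (SP G c 1 D \ {w}).ncard (SP G c 0 D \ {w}).ncard →
      gr G (insert x D) = val (X G D + (s (lf G D w) + s (lf G D w - 1)) +
        E (lf G D c) (SP G c 1 D \ {w}).ncard (SP G c 0 D \ {w}).ncard)) := by
  unfold Q at hq
  rw [lf_leaf_other G hS.hK D x w c hx hw hwc.symm, SP_leaf hS 1 D x w hx hw,
    SP_leaf hS 0 D x w hx hw, X_leaf G hS.hK D x w hx hw hxD] at hq
  exact hq

theorem opt_leaf_c (hS : StarLike G c) (D : Set V) (x : V) (hx : IsLeaf G x) (hw : G.Adj c x)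
    (hxD : x ∈ und G D) (hq : Q G c (insert x D)) :
    (sp (lf G D c - 1) (SP G c 1 D).ncard (SP G c 0 D).ncard → 4 ≤ gr G (insert x D)) ∧
    (¬ sp (lf G D c - 1) (SP G c 1 D).ncard (SP G c 0 D).ncard →
      gr G (insert x D) = val (X G D + (s (lf G D c) + s (lf G D c - 1)) +
        E (lf G D c - 1) (SP G c 1 D).ncard (SP G c 0 D).ncard)) := by
  unfold Q at hq
  rw [lf_leaf_self G hS.hK D x c hx hw hxD, SP_leaf hS 1 D x c hx hw,
    SP_leaf hS 0 D x c hx hw, X_leaf G hS.hK D x c hx hw hxD,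
    Set.sdiff_singleton_eq_self (not_SP_c 1 D), Set.sdiff_singleton_eq_self (not_SP_c 0 D)] at hq
  exact hq

/-- Values reached by a move. -/
def Reach (G : SimpleGraph V) (D : Set V) (z : A) : Prop :=
  ∃ y, Legal G D y ∧ gr G (insert y D) = val (X G D + z)

omit [Fintype V] in
theorem ncard_sub (S : Set V) (y : V) (h : y ∈ S) : (S \ {y}).ncard = S.ncard - 1 :=
  Set.ncard_sdiff_singleton_of_mem h

theorem cast2 (n : ℕ) : (((n % 2 : ℕ)) : ZMod 2) = (n : ZMod 2) := ZMod.natCast_mod n 2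

theorem reach_P (hS : StarLike G c) (D : Set V) (hI : Inv G c D)
    (hQ : ∀ y, Legal G D y → Inv G c (insert y D) → Q G c (insert y D))
    (z1 z2 : ℕ) (hP : P (lf G D c) (SP G c 1 D).ncard (SP G c 0 D).ncard z1 z2) :
    Reach G D ((z1 : ZMod 2), (z2 : ZMod 2)) := by
  have ex : ∀ p, 1 ≤ (SP G c p D).ncard → ∃ v, v ∈ SP G c p D := fun p h =>
    (Set.ncard_pos (Set.toFinite _)).1 h
  rcases hP with ⟨h1, h2, h3⟩ | ⟨h1, h2, h3, h4⟩ | ⟨h1, h2, h3, h4⟩ | ⟨h1, h2, h3, h4⟩ |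
    ⟨h1, h2, h3, h4⟩ | ⟨h1, h2, h3, h4⟩
  · have hl : Legal G D c := by
      rcases h1 with h1 | h1 | h1
      · exact legal_inner G D c h1
      · obtain ⟨v, hv⟩ := ex 1 h1
        exact (legal_iff G D c).2 ⟨v, hv.2.2.1, Or.inr (hS.adj v hv.1 hv.2.1)⟩
      · obtain ⟨v, hv⟩ := ex 0 h1
        exact (legal_iff G D c).2 ⟨v, hv.2.2.1, Or.inr (hS.adj v hv.1 hv.2.1)⟩
    refine ⟨c, hl, ?_⟩
    rw [opt_c hS D (hQ c hl (inv_c hS D hI)), s_bits, h2, h3]
  · obtain ⟨v, hv⟩ := ex 1 h1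
    have hlv := hI.2 v hv.1 hv.2.1 hv.2.2.1
    have hl := legal_inner G D v (by omega)
    refine ⟨v, hl, ?_⟩
    have ho := (opt_inner hS D v hv.1 hv.2.1 (hQ v hl (inv_inner hS D v hv.1 hv.2.1 hI))).2
    rw [ncard_sub _ v hv, Set.sdiff_singleton_eq_self (SP_disj D v hv)] at ho
    rw [ho h2, h3, h4, cast2, add_assoc]
    congr 2
    rw [s_bits, show s1 (lf G D v) = 1 from hv.2.2.2, s2_pos _ (by omega),
      show (lf G D v + 1) % 2 = 0 by have := hv.2.2.2; omega]
    unfold E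
    ext <;> simp
  · obtain ⟨v, hv⟩ := ex 1 h1
    have hlv := hI.2 v hv.1 hv.2.1 hv.2.2.1
    obtain ⟨x, hx1, hx2, hx3⟩ := exists_leaf G D v (by omega)
    have hl := legal_leaf G D x hx3
    refine ⟨x, hl, ?_⟩
    have ho := (opt_leaf hS D x v hx2 hx1 hv.2.1 hx3
      (hQ x hl (inv_leaf hS D x v hx2 hx1 hI))).2
    rw [ncard_sub _ v hv, Set.sdiff_singleton_eq_self (SP_disj D v hv)] at ho
    rw [ho h2, h3, h4, cast2, cast2, add_assoc, s_pred _ hlv]
    congr 2
    unfold E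
    ext <;> simp
  · obtain ⟨v, hv⟩ := ex 0 h1
    have hlv := hI.2 v hv.1 hv.2.1 hv.2.2.1
    have hl := legal_inner G D v (by omega)
    have hv1 : v ∉ SP G c 1 D := fun h => SP_disj D v h hv
    refine ⟨v, hl, ?_⟩
    have ho := (opt_inner hS D v hv.1 hv.2.1 (hQ v hl (inv_inner hS D v hv.1 hv.2.1 hI))).2
    rw [ncard_sub _ v hv, Set.sdiff_singleton_eq_self hv1] at ho
    rw [ho h2, h3, h4, cast2, add_assoc]
    congr 2
    rw [s_bits, show s1 (lf G D v) = 0 from hv.2.2.2, s2_pos _ (by omega),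
      show (lf G D v + 1) % 2 = 1 by have := hv.2.2.2; omega]
    unfold E
    ext <;> simp
  · obtain ⟨v, hv⟩ := ex 0 h1
    have hlv := hI.2 v hv.1 hv.2.1 hv.2.2.1
    obtain ⟨x, hx1, hx2, hx3⟩ := exists_leaf G D v (by omega)
    have hl := legal_leaf G D x hx3
    have hv1 : v ∉ SP G c 1 D := fun h => SP_disj D v h hv
    refine ⟨x, hl, ?_⟩
    have ho := (opt_leaf hS D x v hx2 hx1 hv.2.1 hx3
      (hQ x hl (inv_leaf hS D x v hx2 hx1 hI))).2
    rw [ncard_sub _ v hv, Set.sdiff_singleton_eq_self hv1] at ho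
    rw [ho h2, h3, h4, cast2, cast2, add_assoc, s_pred _ hlv]
    congr 2
    unfold E
    ext <;> simp
  · obtain ⟨x, hx1, hx2, hx3⟩ := exists_leaf G D c h1
    have hl := legal_leaf G D x hx3
    refine ⟨x, hl, ?_⟩
    have ho := (opt_leaf_c hS D x hx2 hx1 hx3 (hQ x hl (inv_leaf hS D x c hx2 hx1 hI))).2
    rw [ho h2, h3, h4, cast2, cast2, add_assoc, s_bits, s_bits]
    congr 2
    unfold E
    ext <;> simp

end Pool.Agent.NDG61
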