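import Pool.Agent.NDG61.Star

/-! Graphs whose non-leaf vertices form a star: the Grundy value. -/

namespace Pool.Agent.NDG61

open Pool.Agent.NDG25 Classical

variable {V : Type*} [Fintype V] {G : SimpleGraph V} {c : V}

theorem ncard_filter (p : V → Prop) : {v | p v}.ncard = (Finset.univ.filter p).card := by
  rw [← Set.ncard_coe_finset]
  congr 1
  ext v
  simp

theorem exists_dom1 (hS : StarLike G c) (D : Set V) (hI : Inv G c D)
    (h : (X G D).1 ≠ ((s1 (lf G D c) : ℕ) : ZMod 2) + ((SP G c 1 D).ncard : ZMod 2)) :
    ∃ v, ¬ IsLeaf G v ∧ v ≠ c ∧ v ∉ und G D ∧ s (lf G D v) = (1, 0) ∧ 1 ≤ lf G D v := by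
  by_contra hcon
  apply h
  have key : ∀ v, (term G D v).1 = (if v = c then ((s1 (lf G D c) : ℕ) : ZMod 2) else 0) +
      (if v ∈ SP G c 1 D then 1 else 0) := by
    intro v
    unfold term
    by_cases hl : IsLeaf G v
    · rw [if_pos hl, if_neg (fun h : v = c => hS.hc (h ▸ hl)),
        if_neg (fun h : v ∈ SP G c 1 D => h.1 hl), add_zero]
      rfl
    · rw [if_neg hl]
      by_cases hvc : v = c
      · subst hvc
        rw [if_pos rfl, if_neg (not_SP_c 1 D), add_zero, s_bits]
      · rw [if_neg hvc, zero_add]
        by_cases hvD : v ∈ und G D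
        · have h2 := hI.2 v hl hvc hvD
          rcases Nat.mod_two_eq_zero_or_one (lf G D v) with h3 | h3
          · rw [if_neg (fun h : v ∈ SP G c 1 D => by have := h.2.2.2; omega), s_bits,
              show s1 (lf G D v) = 0 from h3]
            rfl
          · rw [if_pos (show v ∈ SP G c 1 D from ⟨hl, hvc, hvD, h3⟩), s_bits,
              show s1 (lf G D v) = 1 from h3]
            rfl
        · rw [if_neg (fun h : v ∈ SP G c 1 D => hvD h.2.2.1)]
          by_contra hne
          exact hcon ⟨v, hl, hvc, hvD, s_fst _ hne⟩
  unfold X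
  rw [Prod.fst_sum, Finset.sum_congr rfl (fun v _ => key v), Finset.sum_add_distrib,
    Finset.sum_ite_eq', if_pos (Finset.mem_univ c), Finset.sum_boole]
  congr 2
  exact (ncard_filter (fun v => v ∈ SP G c 1 D)).symm

theorem exists_dom2 (hS : StarLike G c) (D : Set V) (hI : Inv G c D)
    (h : (X G D).2 ≠ ((s2 (lf G D c) : ℕ) : ZMod 2) + ((SP G c 0 D).ncard : ZMod 2)) :
    ∃ v, ¬ IsLeaf G v ∧ v ≠ c ∧ v ∉ und G D ∧ s (lf G D v) = (0, 1) ∧ 2 ≤ lf G D v := by
  by_contra hcon
  apply h
  have key : ∀ v, (term G D v).2 = (if v = c then ((s2 (lf G D c) : ℕ) : ZMod 2) else 0) +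
      (if v ∈ SP G c 0 D then 1 else 0) := by
    intro v
    unfold term
    by_cases hl : IsLeaf G v
    · rw [if_pos hl, if_neg (fun h : v = c => hS.hc (h ▸ hl)),
        if_neg (fun h : v ∈ SP G c 0 D => h.1 hl), add_zero]
      rfl
    · rw [if_neg hl]
      by_cases hvc : v = c
      · subst hvc
        rw [if_pos rfl, if_neg (not_SP_c 0 D), add_zero, s_bits]
      · rw [if_neg hvc, zero_add]
        by_cases hvD : v ∈ und G D
        · have h2 := hI.2 v hl hvc hvD
          rcases Nat.mod_two_eq_zero_or_one (lf G D v) with h3 | h3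
          · rw [if_pos (show v ∈ SP G c 0 D from ⟨hl, hvc, hvD, h3⟩), s_bits,
              s2_pos _ (by omega), show (lf G D v + 1) % 2 = 1 by omega]
            rfl
          · rw [if_neg (fun h : v ∈ SP G c 0 D => by have := h.2.2.2; omega), s_bits,
              s2_pos _ (by omega), show (lf G D v + 1) % 2 = 0 by omega]
            rfl
        · rw [if_neg (fun h : v ∈ SP G c 0 D => hvD h.2.2.1)]
          by_contra hne
          exact hcon ⟨v, hl, hvc, hvD, s_snd _ hne⟩
  unfold X
  rw [Prod.snd_sum, Finset.sum_congr rfl (fun v _ => key v), Finset.sum_add_distrib,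
    Finset.sum_ite_eq', if_pos (Finset.mem_univ c), Finset.sum_boole]
  congr 2
  exact (ncard_filter (fun v => v ∈ SP G c 0 D)).symm

theorem cast_ne_zero (n : ℕ) (h : (n : ZMod 2) ≠ 0) : n % 2 = 1 := by
  rcases Nat.mod_two_eq_zero_or_one n with h1 | h1
  · exfalso
    apply h
    rw [← cast2, h1]
    rfl
  · exact h1

theorem cast_inj2 (a b : ℕ) (ha : a < 2) (hb : b < 2) (h : (a : ZMod 2) = (b : ZMod 2)) :
    a = b := by
  have := (ZMod.natCast_eq_natCast_iff' a b 2).1 h
  omega

theorem e1_lt (j a b : ℕ) : e1 j a b < 2 := by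
  unfold e1; split_ifs <;> omega
theorem e2_lt (j a b : ℕ) : e2 j a b < 2 := by
  unfold e2; split_ifs <;> omega

/-- Every number below 4 is the value of a shift. -/
theorem all_vals (p : A) (k : ℕ) (h : k < 4) :
    ∃ z1 z2 : ℕ, z1 < 2 ∧ z2 < 2 ∧ k = val (p + ((z1 : ZMod 2), (z2 : ZMod 2))) := by
  have h1 : ∀ p : A, ∀ k : Fin 4, ∃ z1 z2 : Fin 2,
      (k : ℕ) = val (p + (((z1 : ℕ) : ZMod 2), ((z2 : ℕ) : ZMod 2))) := by decide
  obtain ⟨z1, z2, hz⟩ := h1 p ⟨k, h⟩
  exact ⟨z1, z2, z1.2, z2.2, hz⟩

/-- The finishing step: the smaller values are reached. -/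
theorem finish (D : Set V) (W : A) (e : A) (hW : W = X G D + e)
    (P1 : W.1 ≠ 0 → Reach G D (e + (1, 0))) (P2 : W.2 ≠ 0 → Reach G D (e + (0, 1)))
    (P3 : W.2 ≠ 0 → Reach G D (e + (1, 1))) (k : ℕ) (hk : k < val W) :
    ∃ y, Legal G D y ∧ gr G (insert y D) = k := by
  have R : ∀ x : A, Reach G D (e + x) → k = val (W + x) →
      ∃ y, Legal G D y ∧ gr G (insert y D) = k := by
    rintro x ⟨y, hy, hg⟩ hkx
    refine ⟨y, hy, ?_⟩
    rw [hg, hkx, hW, add_assoc]
  have hp : W = (0, 0) ∨ W = (1, 0) ∨ W = (0, 1) ∨ W = (1, 1) := by
    clear R P1 P2 P3 hk hW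
    revert W; decide
  rcases hp with hp | hp | hp | hp
  · rw [hp] at hk
    exact absurd hk (by simp [val])
  · refine R (1, 0) (P1 (by rw [hp]; decide)) ?_
    rw [hp] at hk ⊢
    have e1 : val ((1, 0) : A) = 1 := by decide
    have e2 : val (((1, 0) : A) + (1, 0)) = 0 := by decide
    omega
  · have e1 : val ((0, 1) : A) = 2 := by decide
    have e2 : val (((0, 1) : A) + (0, 1)) = 0 := by decide
    have e3 : val (((0, 1) : A) + (1, 1)) = 1 := by decide
    rw [hp, e1] at hk
    have hk' : k = 0 ∨ k = 1 := by omega
    rcases hk' with hk' | hk'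
    · exact R (0, 1) (P2 (by rw [hp]; decide)) (by rw [hp, e2]; exact hk')
    · exact R (1, 1) (P3 (by rw [hp]; decide)) (by rw [hp, e3]; exact hk')
  · have e1 : val ((1, 1) : A) = 3 := by decide
    have e2 : val (((1, 1) : A) + (0, 1)) = 1 := by decide
    have e3 : val (((1, 1) : A) + (1, 1)) = 0 := by decide
    have e4 : val (((1, 1) : A) + (1, 0)) = 2 := by decide
    rw [hp, e1] at hk
    have hk' : k = 0 ∨ k = 1 ∨ k = 2 := by omega
    rcases hk' with hk' | hk' | hk'
    · exact R (1, 1) (P3 (by rw [hp]; decide)) (by rw [hp, e3]; exact hk')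
    · exact R (0, 1) (P2 (by rw [hp]; decide)) (by rw [hp, e2]; exact hk')
    · exact R (1, 0) (P1 (by rw [hp]; decide)) (by rw [hp, e4]; exact hk')

theorem bits_eq (n1 n2 j a b : ℕ) (h : ((n1 : ZMod 2), (n2 : ZMod 2)) = E j a b) :
    e1 j a b = n1 % 2 ∧ e2 j a b = n2 % 2 := by
  have h1 : (n1 : ZMod 2) = ((e1 j a b : ℕ) : ZMod 2) := congrArg Prod.fst h
  have h2 : (n2 : ZMod 2) = ((e2 j a b : ℕ) : ZMod 2) := congrArg Prod.snd h
  have h3 := (ZMod.natCast_eq_natCast_iff' _ _ 2).1 h1
  have h4 := (ZMod.natCast_eq_natCast_iff' _ _ 2).1 h2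
  have h5 := e1_lt j a b
  have h6 := e2_lt j a b
  omega

theorem cancel_E (p z : A) (j a b : ℕ) (h : val (p + z) = val (p + E j a b)) : z = E j a b :=
  add_left_cancel (val_inj _ _ h)

/-- The values of the positions with a dominated centre. -/
theorem keyI (hS : StarLike G c) : ∀ n : ℕ, ∀ D : Set V, (und G D).ncard = n → Inv G c D →
    c ∉ und G D → Q G c D := by
  intro n
  induction n using Nat.strong_induction_on with
  | _ n ih =>
    intro D hD hI hcD
    have hQ : ∀ y, Legal G D y → Inv G c (insert y D) → Q G c (insert y D) := fun y hy hi =>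
      ih _ (hD ▸ und_lt G D y hy) _ rfl hi (c_und_mono D y hcD)
    set j := lf G D c with hj
    set a := (SP G c 1 D).ncard with ha
    set b := (SP G c 0 D).ncard with hb
    refine ⟨fun hsp => ?_, fun hsp => ?_⟩
    · -- exceptional position
      by_contra hlt
      push Not at hlt
      obtain ⟨z1, z2, hz1, hz2, hk⟩ := all_vals (X G D) (gr G D) hlt
      have hP : P j a b z1 z2 := by
        obtain ⟨h1, h2⟩ := hsp
        rw [show j = 1 from h1, show b = a + 1 from h2]
        exact num_sp a z1 z2 hz1 hz2
      obtain ⟨y, hy, hg⟩ := reach_P hS D hI hQ z1 z2 hP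
      exact gr_ne G D y hy (hg.trans hk.symm)
    · -- moves at dominated non-leaf vertices
      have hdi : ∀ v, ¬ IsLeaf G v → v ≠ c → v ∉ und G D → 1 ≤ lf G D v →
          Legal G D v ∧ gr G (insert v D) = val (X G D + s (lf G D v) + E j a b) := by
        intro v hv hvc hvD h1
        have hl := legal_inner G D v h1
        have ho := (opt_inner hS D v hv hvc (hQ v hl (inv_inner hS D v hv hvc hI))).2
        rw [Set.sdiff_singleton_eq_self (fun h : v ∈ SP G c 1 D => hvD h.2.2.1),
          Set.sdiff_singleton_eq_self (fun h : v ∈ SP G c 0 D => hvD h.2.2.1)] at ho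
        exact ⟨hl, ho hsp⟩
      have hdl : ∀ v x, IsLeaf G x → G.Adj v x → v ≠ c → v ∉ und G D → x ∈ und G D →
          gr G (insert x D) = val (X G D + (s (lf G D v) + s (lf G D v - 1)) + E j a b) := by
        intro v x hx hvx hvc hvD hxD
        have hl := legal_leaf G D x hxD
        have ho := (opt_leaf hS D x v hx hvx hvc hxD
          (hQ x hl (inv_leaf hS D x v hx hvx hI))).2
        rw [Set.sdiff_singleton_eq_self (fun h : v ∈ SP G c 1 D => hvD h.2.2.1),
          Set.sdiff_singleton_eq_self (fun h : v ∈ SP G c 0 D => hvD h.2.2.1)] at ho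
        exact ho hsp
      have hne : ¬ P j a b (e1 j a b) (e2 j a b) := num_ne j a b hsp
      have hA : ∀ p z : A, z ≠ 0 → val (p + z + E j a b) ≠ val (p + E j a b) := by
        intro p z hz h
        rw [add_right_comm] at h
        exact A_ne _ _ hz h
      have hsne : ∀ m, 1 ≤ m → s m + s (m - 1) ≠ 0 := by
        intro m hm
        rcases Nat.lt_or_ge m 2 with h2 | h2
        · have : m = 1 := by omega
          rw [this, s_one]; decide
        · rw [s_pred _ h2]; decide
      apply gr_eq
      · intro y hy hg
        have hbig : 4 ≤ gr G (insert y D) → False := fun h => by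
          rw [hg] at h
          exact absurd (val_lt _) (not_lt.2 h)
        by_cases hyl : IsLeaf G y
        · obtain ⟨w, hw, -⟩ := id hyl
          have hwy : G.Adj w y := hw.symm
          have hwl : ¬ IsLeaf G w := hS.hK y w hw hyl
          have hyD : y ∈ und G D := by
            obtain ⟨u, hu, hyu⟩ := (legal_iff G D y).1 hy
            rcases (inNbhd_leaf G hyl hwy).1 hyu with rfl | rfl
            · exact hu
            · exact hI.1 _ y hyl hwy hu
          have h1 := lf_pos G D w y hwy hyl hyD
          by_cases hwc : w = c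
          · subst hwc
            have ho := opt_leaf_c hS D y hyl hwy hyD (hQ y hy (inv_leaf hS D y w hyl hwy hI))
            by_cases hsp' : sp (j - 1) a b
            · exact hbig (ho.1 hsp')
            · have hv := ho.2 hsp'
              rw [hg, add_assoc] at hv
              have hz := cancel_E _ _ _ _ _ hv.symm
              apply hne
              refine Or.inr (Or.inr (Or.inr (Or.inr (Or.inr ⟨h1, hsp', ?_⟩))))
              apply bits_eq
              rw [← hz, s_bits, s_bits]
              unfold E
              ext <;> simp <;> rfl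
          · by_cases hwD : w ∈ und G D
            · have h2 := hI.2 w hwl hwc hwD
              have ho := opt_leaf hS D y w hyl hwy hwc hyD
                (hQ y hy (inv_leaf hS D y w hyl hwy hI))
              rcases Nat.mod_two_eq_zero_or_one (lf G D w) with h3 | h3
              · have hm : w ∈ SP G c 0 D := ⟨hwl, hwc, hwD, h3⟩
                have hm1 : w ∉ SP G c 1 D := fun h => SP_disj D w h hm
                have hpos : 1 ≤ b := (Set.ncard_pos (Set.toFinite _)).2 ⟨w, hm⟩
                rw [ncard_sub _ w hm, Set.sdiff_singleton_eq_self hm1] at ho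
                by_cases hsp' : sp j a (b - 1)
                · exact hbig (ho.1 hsp')
                · have hv := ho.2 hsp'
                  rw [hg, add_assoc] at hv
                  have hz := cancel_E _ _ _ _ _ hv.symm
                  apply hne
                  refine Or.inr (Or.inr (Or.inr (Or.inr (Or.inl ⟨hpos, hsp', ?_⟩))))
                  apply bits_eq
                  rw [← hz, s_pred _ h2]
                  unfold E
                  ext <;> simp <;> rfl
              · have hm : w ∈ SP G c 1 D := ⟨hwl, hwc, hwD, h3⟩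
                have hpos : 1 ≤ a := (Set.ncard_pos (Set.toFinite _)).2 ⟨w, hm⟩
                rw [ncard_sub _ w hm, Set.sdiff_singleton_eq_self (SP_disj D w hm)] at ho
                by_cases hsp' : sp j (a - 1) b
                · exact hbig (ho.1 hsp')
                · have hv := ho.2 hsp'
                  rw [hg, add_assoc] at hv
                  have hz := cancel_E _ _ _ _ _ hv.symm
                  apply hne
                  refine Or.inr (Or.inr (Or.inl ⟨hpos, hsp', ?_⟩))
                  apply bits_eq
                  rw [← hz, s_pred _ h2]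
                  unfold E
                  ext <;> simp <;> rfl
            · rw [hdl w y hyl hwy hwc hwD hyD] at hg
              exact hA _ _ (hsne _ h1) hg
        · by_cases hyc : y = c
          · subst hyc
            have hv := opt_c hS D (hQ y hy (inv_c hS D hI))
            rw [hg] at hv
            have hz := cancel_E _ _ _ _ _ hv.symm
            apply hne
            have hb2 := bits_eq (s1 (lf G D y)) (s2 (lf G D y)) j a b (by rw [← hz, s_bits])
            have hs1 : s1 (lf G D y) < 2 := Nat.mod_lt _ (by omega)
            have hs2 : s2 (lf G D y) < 2 := by unfold s2; split_ifs <;> omega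
            refine Or.inl ⟨?_, ?_, ?_⟩
            · obtain ⟨u, hu, hyu⟩ := (legal_iff G D y).1 hy
              rcases hyu with rfl | hyu
              · exact absurd hu hcD
              · by_cases hul : IsLeaf G u
                · exact Or.inl (lf_pos G D y u hyu hul hu)
                · rcases Nat.mod_two_eq_zero_or_one (lf G D u) with h3 | h3
                  · right; right
                    exact (Set.ncard_pos (Set.toFinite _)).2 ⟨u, hul, hyu.ne', hu, h3⟩
                  · right; left
                    exact (Set.ncard_pos (Set.toFinite _)).2 ⟨u, hul, hyu.ne', hu, h3⟩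
            · rw [hb2.1]; exact Nat.mod_eq_of_lt hs1
            · rw [hb2.2]; exact Nat.mod_eq_of_lt hs2
          · by_cases hyD : y ∈ und G D
            · have h2 := hI.2 y hyl hyc hyD
              have ho := opt_inner hS D y hyl hyc (hQ y hy (inv_inner hS D y hyl hyc hI))
              rcases Nat.mod_two_eq_zero_or_one (lf G D y) with h3 | h3
              · have hm : y ∈ SP G c 0 D := ⟨hyl, hyc, hyD, h3⟩
                have hm1 : y ∉ SP G c 1 D := fun h => SP_disj D y h hm
                have hpos : 1 ≤ b := (Set.ncard_pos (Set.toFinite _)).2 ⟨y, hm⟩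
                rw [ncard_sub _ y hm, Set.sdiff_singleton_eq_self hm1] at ho
                by_cases hsp' : sp j a (b - 1)
                · exact hbig (ho.1 hsp')
                · have hv := ho.2 hsp'
                  rw [hg, add_assoc] at hv
                  have hz := cancel_E _ _ _ _ _ hv.symm
                  apply hne
                  have hb2 := bits_eq (e1 j a (b - 1)) (1 + e2 j a (b - 1)) j a b (by
                    rw [← hz, s_bits, show s1 (lf G D y) = 0 from h3, s2_pos _ (by omega),
                      show (lf G D y + 1) % 2 = 1 by omega]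
                    unfold E
                    ext <;> simp <;> rfl)
                  refine Or.inr (Or.inr (Or.inr (Or.inl ⟨hpos, hsp', ?_, hb2.2⟩)))
                  rw [hb2.1]; exact Nat.mod_eq_of_lt (e1_lt _ _ _)
              · have hm : y ∈ SP G c 1 D := ⟨hyl, hyc, hyD, h3⟩
                have hpos : 1 ≤ a := (Set.ncard_pos (Set.toFinite _)).2 ⟨y, hm⟩
                rw [ncard_sub _ y hm, Set.sdiff_singleton_eq_self (SP_disj D y hm)] at ho
                by_cases hsp' : sp j (a - 1) b
                · exact hbig (ho.1 hsp')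
                · have hv := ho.2 hsp'
                  rw [hg, add_assoc] at hv
                  have hz := cancel_E _ _ _ _ _ hv.symm
                  apply hne
                  have hb2 := bits_eq (1 + e1 j (a - 1) b) (e2 j (a - 1) b) j a b (by
                    rw [← hz, s_bits, show s1 (lf G D y) = 1 from h3, s2_pos _ (by omega),
                      show (lf G D y + 1) % 2 = 0 by omega]
                    unfold E
                    ext <;> simp <;> rfl)
                  refine Or.inr (Or.inl ⟨hpos, hsp', hb2.1, ?_⟩)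
                  rw [hb2.2]; exact Nat.mod_eq_of_lt (e2_lt _ _ _)
            · have h1 : 1 ≤ lf G D y := by
                obtain ⟨u, hu, hyu⟩ := (legal_iff G D y).1 hy
                rcases hyu with rfl | hyu
                · exact absurd hu hyD
                · by_cases hul : IsLeaf G u
                  · exact lf_pos G D y u hyu hul hu
                  · rcases hS.star y u hyl hul hyu with h4 | h4
                    · exact absurd h4 hyc
                    · rw [h4] at hu; exact absurd hu hcD
              rw [(hdi y hyl hyc hyD h1).2] at hg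
              exact hA _ _ (s_ne _ h1) hg
      · intro k hk
        refine finish D (X G D + E j a b) (E j a b) rfl ?_ ?_ ?_ k hk
        · intro hW
          by_cases ht : (X G D).1 = ((s1 j : ℕ) : ZMod 2) + (a : ZMod 2)
          · have hx : (s1 j + a + e1 j a b) % 2 = 1 := by
              apply cast_ne_zero
              push_cast
              rw [← ht]
              exact hW
            have hP := num_lt j a b 1 0 hsp (by omega) (by omega) (Or.inr ⟨rfl, rfl, hx⟩)
            have hr := reach_P hS D hI hQ _ _ hP
            rw [cast2, cast2] at hr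
            have : (((e1 j a b + 1 : ℕ) : ZMod 2), ((e2 j a b + 0 : ℕ) : ZMod 2)) =
                E j a b + (1, 0) := by
              unfold E
              ext <;> simp <;> rfl
            rwa [this] at hr
          · obtain ⟨v, hv, hvc, hvD, hs, h1⟩ := exists_dom1 hS D hI ht
            obtain ⟨hl, hg⟩ := hdi v hv hvc hvD h1
            refine ⟨v, hl, ?_⟩
            rw [hg, hs, add_right_comm, add_assoc]
        · intro hW
          by_cases ht : (X G D).2 = ((s2 j : ℕ) : ZMod 2) + (b : ZMod 2)
          · have hx : (s2 j + b + e2 j a b) % 2 = 1 := by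
              apply cast_ne_zero
              push_cast
              rw [← ht]
              exact hW
            have hP := num_lt j a b 0 1 hsp (by omega) (by omega) (Or.inl ⟨rfl, hx⟩)
            have hr := reach_P hS D hI hQ _ _ hP
            rw [cast2, cast2] at hr
            have : (((e1 j a b + 0 : ℕ) : ZMod 2), ((e2 j a b + 1 : ℕ) : ZMod 2)) =
                E j a b + (0, 1) := by
              unfold E
              ext <;> simp <;> rfl
            rwa [this] at hr
          · obtain ⟨v, hv, hvc, hvD, hs, h1⟩ := exists_dom2 hS D hI ht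
            obtain ⟨hl, hg⟩ := hdi v hv hvc hvD (by omega)
            refine ⟨v, hl, ?_⟩
            rw [hg, hs, add_right_comm, add_assoc]
        · intro hW
          by_cases ht : (X G D).2 = ((s2 j : ℕ) : ZMod 2) + (b : ZMod 2)
          · have hx : (s2 j + b + e2 j a b) % 2 = 1 := by
              apply cast_ne_zero
              push_cast
              rw [← ht]
              exact hW
            have hP := num_lt j a b 1 1 hsp (by omega) (by omega) (Or.inl ⟨rfl, hx⟩)
            have hr := reach_P hS D hI hQ _ _ hP
            rw [cast2, cast2] at hr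
            have : (((e1 j a b + 1 : ℕ) : ZMod 2), ((e2 j a b + 1 : ℕ) : ZMod 2)) =
                E j a b + (1, 1) := by
              unfold E
              ext <;> simp <;> rfl
            rwa [this] at hr
          · obtain ⟨v, hv, hvc, hvD, hs, h1⟩ := exists_dom2 hS D hI ht
            obtain ⟨x, hx1, hx2, hx3⟩ := exists_leaf G D v (by omega)
            refine ⟨x, legal_leaf G D x hx3, ?_⟩
            rw [hdl v x hx2 hx1 hvc hvD hx3, s_pred _ h1, add_right_comm, add_assoc]

/-- The values of the positions with an undominated centre. -/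
theorem keyII (hS : StarLike G c) (D : Set V) (hI : Inv G c D) (hcD : c ∈ und G D)
    (h4 : 4 ≤ lf G D c) (hd : ∀ v, ¬ IsLeaf G v → v ≠ c → v ∉ und G D → 2 ≤ lf G D v) :
    gr G D = val (X G D) := by
  have hQ : ∀ D', Inv G c D' → c ∉ und G D' → Q G c D' := fun D' h1 h2 =>
    keyI hS _ D' rfl h1 h2
  have h2 : ∀ v, ¬ IsLeaf G v → v ≠ c → 2 ≤ lf G D v := by
    intro v hv hvc
    by_cases hvD : v ∈ und G D
    · exact hI.2 v hv hvc hvD
    · exact hd v hv hvc hvD
  have hE : ∀ j a b, 3 ≤ j → E j a b = 0 := by
    intro j a b hj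
    unfold E
    rw [e1_ge j a b hj, e2_ge j a b hj]
    decide
  have hc : Legal G D c ∧ gr G (insert c D) = val (X G D + s (lf G D c)) :=
    ⟨legal_inner G D c (by omega), opt_c hS D (hQ _ (inv_c hS D hI) (c_und_c D))⟩
  have hin : ∀ y, ¬ IsLeaf G y → y ≠ c → Legal G D y ∧
      gr G (insert y D) = val (X G D + s (lf G D y)) := by
    intro y hy hyc
    have ho := (opt_inner hS D y hy hyc (hQ _ (inv_inner hS D y hy hyc hI)
      (c_und_inner hS D y hy hyc))).2 (by unfold sp; omega)
    rw [hE _ _ _ (by omega), add_zero] at ho
    exact ⟨legal_inner G D y (by have := h2 y hy hyc; omega), ho⟩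
  have hlc : ∀ D', Inv G c D' → 4 ≤ lf G D' c → ∀ x, IsLeaf G x → G.Adj c x →
      x ∈ und G D' → gr G (insert x D') = val (X G D' + (1, 1)) := by
    intro D' hI' h4' x hx hcx hxD
    have hcx' : c ∉ und G (insert x D') := by
      rw [mem_und_insert]
      exact fun h => h.2 (Or.inr hcx.symm)
    have ho := (opt_leaf_c hS D' x hx hcx hxD (hQ _ (inv_leaf hS D' x c hx hcx hI') hcx')).2
      (by unfold sp; omega)
    rw [hE _ _ _ (by omega), add_zero, s_pred _ (by omega)] at ho
    exact ho
  have hall : ∀ v, ¬ IsLeaf G v → Legal G D v ∧ gr G (insert v D) = val (X G D + s (lf G D v)) := by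
    intro v hv
    by_cases hvc : v = c
    · subst hvc; exact hc
    · exact hin v hv hvc
  have hfin := finish D (X G D) 0 (add_zero _).symm
  apply gr_eq
  · intro y hy hg
    by_cases hyl : IsLeaf G y
    · obtain ⟨w, hw, -⟩ := id hyl
      have hwy : G.Adj w y := hw.symm
      have hwl : ¬ IsLeaf G w := hS.hK y w hw hyl
      have hyD : y ∈ und G D := by
        obtain ⟨u, hu, hyu⟩ := (legal_iff G D y).1 hy
        rcases (inNbhd_leaf G hyl hwy).1 hyu with rfl | rfl
        · exact hu
        · exact hI.1 _ y hyl hwy hu
      by_cases hwc : w = c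
      · subst hwc
        rw [hlc D hI h4 y hyl hwy hyD] at hg
        exact A_ne _ _ (by decide) hg
      · have hlw := h2 w hwl hwc
        have hI' := inv_leaf hS D y w hyl hwy hI
        have hlfc : lf G (insert y D) c = lf G D c :=
          lf_leaf_other G hS.hK D y w c hyl hwy (Ne.symm hwc)
        obtain ⟨x, hx1, hx2, hx3⟩ := exists_leaf G (insert y D) c (by omega)
        have hv := hlc (insert y D) hI' (by omega) x hx2 hx1 hx3
        rw [X_leaf G hS.hK D y w hyl hwy hyD, s_pred _ hlw, add_assoc,
          show ((1, 1) : A) + (1, 1) = 0 by decide, add_zero] at hv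
        exact gr_ne G (insert y D) x (legal_leaf G _ x hx3) (hv.trans hg.symm)
    · rw [(hall y hyl).2] at hg
      refine A_ne _ _ (s_ne _ ?_) hg
      by_cases hyc : y = c
      · subst hyc; omega
      · have := h2 y hyl hyc; omega
  · refine hfin ?_ ?_ ?_
    · intro hW
      obtain ⟨v, hv, hs, _⟩ := exists_odd G D hW
      refine ⟨v, (hall v hv).1, ?_⟩
      rw [(hall v hv).2, hs, zero_add]
    · intro hW
      obtain ⟨v, hv, hs, _⟩ := exists_even G D hW
      refine ⟨v, (hall v hv).1, ?_⟩
      rw [(hall v hv).2, hs, zero_add]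
    · intro _
      obtain ⟨x, hx1, hx2, hx3⟩ := exists_leaf G D c (by omega)
      refine ⟨x, legal_leaf G D x hx3, ?_⟩
      rw [hlc D hI h4 x hx2 hx1 hx3, zero_add]

end Pool.Agent.NDG61
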