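import Pool.Agent.NDG61.StarKey

/-! Graphs whose non-leaf vertices form a star: the winner. -/

namespace Pool.Agent.NDG61

open Pool.Agent.NDG25 Classical

theorem noK2_conn {V : Type*} [Finite V] (G : SimpleGraph V) (h : G.Connected)
    (h3 : 3 ≤ Nat.card V) : NoK2 G := by
  intro x y hxy hx hy
  have key : ∀ u z : V, G.Walk u z → (u = x ∨ u = y) → (z = x ∨ z = y) := by
    intro u z p
    induction p with
    | nil => exact id
    | cons hadj p ih =>
      rintro (rfl | rfl)
      · exact ih (Or.inr (hx.unique hadj hxy))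
      · exact ih (Or.inl (hy.unique hadj hxy.symm))
  have hall : (Set.univ : Set V) ⊆ {x, y} := by
    intro z _
    obtain ⟨p⟩ := h.preconnected x z
    exact key x z p (Or.inl rfl)
  have h1 := Set.ncard_le_ncard hall (Set.toFinite _)
  rw [Set.ncard_univ] at h1
  have h2 : ({x, y} : Set V).ncard ≤ 2 := Set.ncard_insert_le x {y} |>.trans (by simp)
  omega

variable {V : Type*}

theorem und_e (G : SimpleGraph V) (u : V) : u ∈ und G ∅ := by
  rintro ⟨v, hv, _⟩
  exact hv

theorem lf_e (G : SimpleGraph V) (v : V) : lf G ∅ v = leafDeg G v := by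
  unfold lf leafDeg
  congr 1
  ext x
  exact ⟨fun h => ⟨h.1, h.2.1⟩, fun h => ⟨h.1, h.2, und_e G x⟩⟩

theorem gr_star [Finite V] (G : SimpleGraph V) (c : V)
    (hK : (∀ x y, G.Adj x y → IsLeaf G x → ¬ IsLeaf G y) ∨ G.Connected)
    (hc : ¬ IsLeaf G c) (hadj : ∀ v, ¬ IsLeaf G v → v ≠ c → G.Adj c v)
    (hst : ∀ u v, ¬ IsLeaf G u → ¬ IsLeaf G v → G.Adj u v → u = c ∨ v = c)
    (h4 : 4 ≤ leafDeg G c) (h2 : ∀ v, ¬ IsLeaf G v → v ≠ c → 2 ≤ leafDeg G v) :
    gr G ∅ = oddInner G % 2 + 2 * (evenInner G % 2) := by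
  cases nonempty_fintype V
  have hK' : NoK2 G := by
    rcases hK with h | h
    · exact h
    · refine noK2_conn G h ?_
      have : leafDeg G c ≤ Nat.card V := by
        rw [← Set.ncard_univ]
        exact Set.ncard_le_ncard (Set.subset_univ _) (Set.toFinite _)
      omega
  have hS : StarLike G c := ⟨hK', hc, hadj, hst⟩
  have hI : Inv G c ∅ := by
    refine ⟨fun _ x _ _ _ => und_e G x, fun v hv hvc _ => ?_⟩
    rw [lf_e]
    exact h2 v hv hvc
  have h3 : ∀ v, ¬ IsLeaf G v → 1 ≤ leafDeg G v := by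
    intro v hv
    by_cases hvc : v = c
    · subst hvc; omega
    · have := h2 v hv hvc; omega
  rw [keyII hS ∅ hI (und_e G c) (by rw [lf_e]; exact h4)
    (fun v _ _ h => absurd (und_e G v) h)]
  have e1 : (X G ∅).1 = (oddInner G : ZMod 2) := by
    unfold X oddInner
    rw [Prod.fst_sum, ncard_filter, ← Finset.sum_boole]
    refine Finset.sum_congr rfl fun v _ => ?_
    unfold term
    rw [lf_e]
    by_cases hv : IsLeaf G v
    · rw [if_pos hv, if_neg (fun h => h.1 hv)]; rfl
    · have h3 := h3 v hv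
      rw [if_neg hv]
      unfold s
      rw [if_neg (by omega)]
      by_cases ho : leafDeg G v % 2 = 1
      · rw [if_pos ho, if_pos ⟨hv, Nat.odd_iff.2 ho⟩]
      · rw [if_neg ho, if_neg (fun h => ho (Nat.odd_iff.1 h.2))]
  have e2 : (X G ∅).2 = (evenInner G : ZMod 2) := by
    unfold X evenInner
    rw [Prod.snd_sum, ncard_filter, ← Finset.sum_boole]
    refine Finset.sum_congr rfl fun v _ => ?_
    unfold term
    rw [lf_e]
    by_cases hv : IsLeaf G v
    · rw [if_pos hv, if_neg (fun h => h.1 hv)]; rfl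
    · have h3 := h3 v hv
      rw [if_neg hv]
      unfold s
      rw [if_neg (by omega)]
      by_cases ho : leafDeg G v % 2 = 1
      · rw [if_pos ho, if_neg (fun h => by have := Nat.even_iff.1 h.2; omega)]
      · rw [if_neg ho, if_pos ⟨hv, Nat.even_iff.2 (by omega)⟩]
  unfold val
  rw [e1, e2, ZMod.val_natCast, ZMod.val_natCast]

end Pool.Agent.NDG61
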